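/-
Degree bound with different groups: the groups `G i` have perfect commutator subgroups, and every
representation of `G i` of dimension less than `d i` is trivial on the commutator subgroup. If the
`G i` act on `V` and commute pairwise and `dim V` is less than the product of the `d i`, then the
products of the operators `x_i - 1`, `x_i` in the commutator subgroup of `G i`, vanish.
-/
import Pool.Agent.H.MP_59b15d_al.lin.Red

set_option autoImplicit false

namespace Pool.Agent.H.MP_59b15d_al.H52E

universe u v w

open Module Pool.Agent.H.MP_59b15d_al.Lin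

/-- Every representation of `G` over `F` of dimension less than `d` is trivial on the commutator
subgroup. -/
def MinDimC (F : Type u) [Field F] (G : Type w) [Group G] (d : ℕ) : Prop :=
  ∀ (W : Type v) [AddCommGroup W] [Module F W] [FiniteDimensional F W]
    (σ : G →* Module.End F W), finrank F W < d → ∀ x ∈ commutator G, σ x = 1

/-- The restriction to the commutator subgroup. -/
def cr {F : Type u} [Field F] {G : Type w} [Group G] {V : Type v} [AddCommGroup V] [Module F V]
    (σ : G →* Module.End F V) : commutator G →* Module.End F V :=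
  σ.comp (commutator G).subtype

section fam

variable {F : Type u} [Field F] {ι : Type*} {G : ι → Type w} [∀ i, Group (G i)]
variable {V : Type v} [AddCommGroup V] [Module F V]

/-- The product of the operators `ρ i x - 1` along a list. -/
def px (ρ : ∀ i, G i →* Module.End F V) (L : List (Σ i, commutator (G i))) : Module.End F V :=
  (L.map fun p => ρ p.1 p.2 - 1).prod

@[simp] lemma px_nil (ρ : ∀ i, G i →* Module.End F V) : px ρ [] = 1 := rfl

@[simp] lemma px_cons (ρ : ∀ i, G i →* Module.End F V) (p : Σ i, commutator (G i))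
    (L : List (Σ i, commutator (G i))) : px ρ (p :: L) = (ρ p.1 p.2 - 1) * px ρ L := by
  rw [px, List.map_cons, List.prod_cons, px]

/-- The product of the augmentation spaces. -/
def pxS (ρ : ∀ i, G i →* Module.End F V) (l : List ι) : Submodule F (Module.End F V) :=
  (l.map fun i => aug (cr (ρ i))).prod

lemma pxS_cons (ρ : ∀ i, G i →* Module.End F V) (i : ι) (l : List ι) :
    pxS ρ (i :: l) = aug (cr (ρ i)) * pxS ρ l := by
  rw [pxS, List.map_cons, List.prod_cons, pxS]

lemma px_mem (ρ : ∀ i, G i →* Module.End F V) (L : List (Σ i, commutator (G i))) :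
    px ρ L ∈ pxS ρ (L.map Sigma.fst) := by
  induction L with
  | nil => exact Submodule.one_le.1 le_rfl
  | cons p L ih =>
    rw [px_cons, List.map_cons, pxS_cons]
    exact Submodule.mul_mem_mul (Submodule.subset_span ⟨p.2, rfl⟩) ih

lemma pxS_le (ρ : ∀ i, G i →* Module.End F V) (l : List ι) (Φ : Submodule F (Module.End F V))
    (h : ∀ L : List (Σ i, commutator (G i)), L.map Sigma.fst = l → px ρ L ∈ Φ) :
    pxS ρ l ≤ Φ := by
  have key : pxS ρ l = Submodule.span F
      {A | ∃ L : List (Σ i, commutator (G i)), L.map Sigma.fst = l ∧ px ρ L = A} := by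
    clear h
    induction l with
    | nil =>
      have h1 : {A | ∃ L : List (Σ i, commutator (G i)), L.map Sigma.fst = [] ∧ px ρ L = A} =
          {1} := by
        ext A
        constructor
        · rintro ⟨L, hL, rfl⟩
          rw [List.map_eq_nil_iff] at hL
          subst hL
          rfl
        · rintro rfl
          exact ⟨[], rfl, rfl⟩
      rw [h1, ← Submodule.one_eq_span]
      rfl
    | cons i l ih =>
      rw [pxS_cons, ih, aug, Submodule.span_mul_span]
      congr 1
      ext A
      constructor
      · rintro ⟨_, ⟨x, rfl⟩, _, ⟨L, hL, rfl⟩, rfl⟩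
        exact ⟨⟨i, x⟩ :: L, by rw [List.map_cons, hL], by rw [px_cons]; rfl⟩
      · rintro ⟨L, hL, rfl⟩
        rcases L with _ | ⟨p, L⟩
        · simp at hL
        · rw [List.map_cons, List.cons.injEq] at hL
          obtain ⟨h1, h2⟩ := hL
          subst h1
          exact ⟨_, ⟨p.2, rfl⟩, _, ⟨L, h2, rfl⟩, (px_cons ρ p L).symm⟩
  rw [key, Submodule.span_le]
  rintro _ ⟨L, hL, rfl⟩
  exact h L hL

lemma augc_comm (ρ : ∀ i, G i →* Module.End F V) {i j : ι}
    (hcomm : ∀ x y, ρ i x * ρ j y = ρ j y * ρ i x) :
    aug (cr (ρ i)) * aug (cr (ρ j)) = aug (cr (ρ j)) * aug (cr (ρ i)) := by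
  have key : ∀ i j : ι, (∀ x y, ρ i x * ρ j y = ρ j y * ρ i x) →
      aug (cr (ρ i)) * aug (cr (ρ j)) ≤ aug (cr (ρ j)) * aug (cr (ρ i)) := by
    intro i j hcomm
    rw [aug, aug, Submodule.span_mul_span, Submodule.span_mul_span, Submodule.span_le]
    rintro _ ⟨_, ⟨x, rfl⟩, _, ⟨y, rfl⟩, rfl⟩
    refine Submodule.subset_span ⟨_, ⟨y, rfl⟩, _, ⟨x, rfl⟩, ?_⟩
    have h1 : cr (ρ i) x * cr (ρ j) y = cr (ρ j) y * cr (ρ i) x := hcomm x y
    simp only [sub_mul, mul_sub, h1, one_mul, mul_one]
    abel
  exact le_antisymm (key i j hcomm) (key j i fun x y => (hcomm y x).symm)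

lemma pxS_comm (ρ : ∀ i, G i →* Module.End F V)
    (hcomm : ∀ i j, i ≠ j → ∀ x y, ρ i x * ρ j y = ρ j y * ρ i x) (i : ι) (l : List ι)
    (hi : i ∉ l) : aug (cr (ρ i)) * pxS ρ l = pxS ρ l * aug (cr (ρ i)) := by
  induction l with
  | nil => rw [pxS, List.map_nil, List.prod_nil, mul_one, one_mul]
  | cons j l ih =>
    rw [List.mem_cons, not_or] at hi
    rw [pxS_cons, ← mul_assoc, augc_comm ρ (hcomm i j hi.1), mul_assoc, ih hi.2, mul_assoc]

lemma pxS_idem (ρ : ∀ i, G i →* Module.End F V)
    (hcomm : ∀ i j, i ≠ j → ∀ x y, ρ i x * ρ j y = ρ j y * ρ i x)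
    (hG : ∀ i, ∀ x : commutator (G i), x ∈ commutator (commutator (G i)))
    (l : List ι) (hl : l.Nodup) : pxS ρ l ≤ pxS ρ l * pxS ρ l := by
  induction l with
  | nil => rw [pxS, List.map_nil, List.prod_nil, mul_one]
  | cons i l ih =>
    rw [List.nodup_cons] at hl
    rw [pxS_cons]
    calc aug (cr (ρ i)) * pxS ρ l
        ≤ (aug (cr (ρ i)) * aug (cr (ρ i))) * (pxS ρ l * pxS ρ l) :=
          mul_le_mul' (aug_le _ (hG i)) (ih hl.2)
      _ = aug (cr (ρ i)) * (aug (cr (ρ i)) * pxS ρ l) * pxS ρ l := by simp only [mul_assoc]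
      _ = aug (cr (ρ i)) * (pxS ρ l * aug (cr (ρ i))) * pxS ρ l := by
          rw [pxS_comm ρ hcomm i l hl.1]
      _ = (aug (cr (ρ i)) * pxS ρ l) * (aug (cr (ρ i)) * pxS ρ l) := by simp only [mul_assoc]

lemma px_ext (ρ : ∀ i, G i →* Module.End F V)
    (hcomm : ∀ i j, i ≠ j → ∀ x y, ρ i x * ρ j y = ρ j y * ρ i x)
    (hG : ∀ i, ∀ x : commutator (G i), x ∈ commutator (commutator (G i)))
    (U : Submodule F V) (l : List ι) (hl : l.Nodup)
    (h1 : ∀ L : List (Σ i, commutator (G i)), L.map Sigma.fst = l → ∀ v, px ρ L v ∈ U)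
    (h2 : ∀ L : List (Σ i, commutator (G i)), L.map Sigma.fst = l → ∀ v ∈ U, px ρ L v = 0) :
    ∀ L : List (Σ i, commutator (G i)), L.map Sigma.fst = l → px ρ L = 0 := by
  intro L hL
  let Φ : Submodule F (Module.End F V) :=
    { carrier := {A | (∀ v, A v ∈ U) ∧ ∀ v ∈ U, A v = 0}
      add_mem' := by
        rintro A B ⟨hA, hA'⟩ ⟨hB, hB'⟩
        exact ⟨fun v => U.add_mem (hA v) (hB v), fun v hv => by
          rw [LinearMap.add_apply, hA' v hv, hB' v hv, add_zero]⟩
      zero_mem' := ⟨fun v => U.zero_mem, fun v _ => rfl⟩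
      smul_mem' := by
        rintro c A ⟨hA, hA'⟩
        exact ⟨fun v => U.smul_mem _ (hA v), fun v hv => by
          rw [LinearMap.smul_apply, hA' v hv, smul_zero]⟩ }
  have h3 : pxS ρ l ≤ Φ := pxS_le ρ l Φ fun L hL => ⟨h1 L hL, h2 L hL⟩
  have hz : pxS ρ l * pxS ρ l = ⊥ := by
    rw [eq_bot_iff, Submodule.mul_le]
    intro A hA B hB
    rw [Submodule.mem_bot]
    ext v
    exact (h3 hA).2 _ ((h3 hB).1 v)
  have h4 := pxS_idem ρ hcomm hG l hl (hL ▸ px_mem ρ L)
  rw [hz, Submodule.mem_bot] at h4
  exact h4

lemma px_res (ρ : ∀ i, G i →* Module.End F V) (U : Submodule F V)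
    (hU : ∀ i x, ∀ u ∈ U, ρ i x u ∈ U) (L : List (Σ i, commutator (G i))) (u : U) :
    ((px (fun i => resRep (ρ i) U (hU i)) L u : U) : V) = px ρ L u := by
  induction L with
  | nil => rfl
  | cons p L ih =>
    rw [px_cons, px_cons, Module.End.mul_apply, Module.End.mul_apply, LinearMap.sub_apply,
      LinearMap.sub_apply, Module.End.one_apply, Module.End.one_apply, Submodule.coe_sub,
      resRep_apply, ih]

lemma px_quot (ρ : ∀ i, G i →* Module.End F V) (U : Submodule F V)
    (hU : ∀ i x, ∀ u ∈ U, ρ i x u ∈ U) (L : List (Σ i, commutator (G i))) (u : V) :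
    px (fun i => quotRep (ρ i) U (hU i)) L (Submodule.Quotient.mk u) =
      Submodule.Quotient.mk (px ρ L u) := by
  induction L with
  | nil => rfl
  | cons p L ih =>
    rw [px_cons, px_cons, Module.End.mul_apply, Module.End.mul_apply, LinearMap.sub_apply,
      LinearMap.sub_apply, Module.End.one_apply, Module.End.one_apply, ih, quotRep_mk,
      Submodule.Quotient.mk_sub]

end fam

section single

variable {F : Type u} [Field F] {G : Type w} [Group G]

/-- It is enough to know the irreducible representations. -/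
theorem minDimC_of_irr {d : ℕ} (hG : ∀ x : commutator G, x ∈ commutator (commutator G))
    (h : ∀ (W : Type v) [AddCommGroup W] [Module F W] [FiniteDimensional F W]
      (σ : G →* Module.End F W),
      (∀ U : Submodule F W, (∀ x, ∀ u ∈ U, σ x u ∈ U) → U = ⊥ ∨ U = ⊤) →
      finrank F W < d → ∀ x ∈ commutator G, σ x = 1) : MinDimC.{u, v, w} F G d := by
  have key : ∀ (n : ℕ) (W : Type v) [AddCommGroup W] [Module F W] [FiniteDimensional F W]
      (σ : G →* Module.End F W), finrank F W = n → n < d → ∀ x ∈ commutator G, σ x = 1 := by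
    intro n
    induction n using Nat.strong_induction_on with
    | _ n ih =>
      intro W _ _ _ σ hn hlt x hx
      by_cases hirr : ∀ U : Submodule F W, (∀ x, ∀ u ∈ U, σ x u ∈ U) → U = ⊥ ∨ U = ⊤
      · exact h W σ hirr (hn ▸ hlt) x hx
      · push Not at hirr
        obtain ⟨U, hU, hU1, hU2⟩ := hirr
        have hsum := Submodule.finrank_quotient_add_finrank U
        have hpos1 : 0 < finrank F U := by
          have : Nontrivial U := (Submodule.nontrivial_iff_ne_bot).2 hU1
          exact Module.finrank_pos
        have hlt1 : finrank F U < finrank F W := Submodule.finrank_lt hU2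
        have i1 := ih (finrank F U) (by omega) U (resRep σ U hU) rfl (by omega)
        have i2 := ih (finrank F (W ⧸ U)) (by omega) (W ⧸ U) (quotRep σ U hU) rfl (by omega)
        have e := px_ext (G := fun _ : Unit => G) (fun _ => σ)
          (fun i j hij => absurd (Subsingleton.elim i j) hij) (fun _ => hG) U [()]
          (List.nodup_singleton _) (by
            intro L hL v
            obtain ⟨p, rfl⟩ : ∃ p, L = [p] := by
              rcases L with _ | ⟨p, _ | ⟨q, L⟩⟩
              · simp at hL
              · exact ⟨p, rfl⟩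
              · simp at hL
            have h3 := LinearMap.congr_fun (i2 (p.2 : G) p.2.2) (Submodule.Quotient.mk v)
            rw [quotRep_mk, Module.End.one_apply, Submodule.Quotient.eq] at h3
            rw [px_cons, px_nil, mul_one, LinearMap.sub_apply, Module.End.one_apply]
            exact h3) (by
            intro L hL v hv
            obtain ⟨p, rfl⟩ : ∃ p, L = [p] := by
              rcases L with _ | ⟨p, _ | ⟨q, L⟩⟩
              · simp at hL
              · exact ⟨p, rfl⟩
              · simp at hL
            have h3 := congrArg Subtype.val (LinearMap.congr_fun (i1 (p.2 : G) p.2.2) ⟨v, hv⟩)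
            rw [px_cons, px_nil, mul_one, LinearMap.sub_apply, Module.End.one_apply, sub_eq_zero]
            exact h3) [⟨(), ⟨x, hx⟩⟩] rfl
        rw [px_cons, px_nil, mul_one, sub_eq_zero] at e
        exact e
  intro W _ _ _ σ hlt
  exact key (finrank F W) W σ rfl hlt

/-- For perfect groups this is the previous notion. -/
theorem minDimC_of_minDim {d : ℕ} (h : MinDim.{u, v, w} F G d) : MinDimC.{u, v, w} F G d := by
  intro W _ _ _ σ hlt x _
  rw [h W σ hlt]
  rfl

/-- The hypothesis only depends on the isomorphism class of the group. -/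
theorem MinDimC.congr {G' : Type w} [Group G'] {d : ℕ} (e : G ≃* G')
    (h : MinDimC.{u, v, w} F G d) : MinDimC.{u, v, w} F G' d := by
  intro W _ _ _ σ hlt x hx
  have h1 := h W (σ.comp e.toMonoidHom) hlt (e.symm x) (by
    have h2 : (commutator G').map e.symm.toMonoidHom ≤ commutator G := by
      rw [commutator_def, Subgroup.map_commutator, commutator_def]
      exact Subgroup.commutator_mono le_top le_top
    exact h2 (Subgroup.mem_map_of_mem _ hx))
  simpa using h1

end single

/-- The fixed space of the commutator subgroup of one of the commuting groups is invariant. -/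
lemma fix_inv {F : Type u} [Field F] {ι : Type*} {G : ι → Type w} [∀ i, Group (G i)]
    {V : Type v} [AddCommGroup V] [Module F V] (ρ : ∀ i, G i →* Module.End F V)
    (hcomm : ∀ i j, i ≠ j → ∀ x y, ρ i x * ρ j y = ρ j y * ρ i x) (S : Finset ι)
    (hirr : ∀ U : Submodule F V, (∀ i ∈ S, ∀ x, ∀ u ∈ U, ρ i x u ∈ U) → U = ⊥ ∨ U = ⊤)
    (j : ι) (U : Submodule F V) (hU : U ≠ ⊥) (h : ∀ x ∈ commutator (G j), ∀ u ∈ U, ρ j x u = u) :
    ∀ x ∈ commutator (G j), ρ j x = 1 := by
  let E : Submodule F V :=
    { carrier := {v | ∀ x ∈ commutator (G j), ρ j x v = v}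
      add_mem' := by
        intro a b ha hb x hx
        rw [map_add, ha x hx, hb x hx]
      zero_mem' := fun x _ => map_zero _
      smul_mem' := by
        intro c a ha x hx
        rw [map_smul, ha x hx] }
  have hE : ∀ i ∈ S, ∀ x, ∀ u ∈ E, ρ i x u ∈ E := by
    intro i _ x u hu y hy
    by_cases hij : i = j
    · subst hij
      have h1 : y * x = x * (x⁻¹ * y * x) := by group
      have h2 : x⁻¹ * y * x ∈ commutator (G i) := by
        have := (inferInstance : (commutator (G i)).Normal).conj_mem y hy x⁻¹
        rwa [inv_inv] at this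
      rw [← Module.End.mul_apply, ← map_mul, h1, map_mul, Module.End.mul_apply, hu _ h2]
    · rw [← Module.End.mul_apply, ← hcomm i j hij x y, Module.End.mul_apply, hu y hy]
  intro x hx
  rcases hirr E hE with h1 | h1
  · exfalso
    apply hU
    rw [eq_bot_iff, ← h1]
    exact fun u hu y hy => h y hy u hu
  · ext v
    have h2 : v ∈ E := by rw [h1]; exact Submodule.mem_top
    exact h2 x hx

open Classical in
/-- **Support bound** with different groups. -/
theorem irr_boundC {F : Type u} [Field F] [IsAlgClosed F] {ι : Type*} {G : ι → Type w}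
    [∀ i, Group (G i)] {d : ι → ℕ} (hd : ∀ i, MinDimC.{u, v, w} F (G i) (d i)) (S : Finset ι) :
    ∀ (V : Type v) [AddCommGroup V] [Module F V] [FiniteDimensional F V] [Nontrivial V]
      (ρ : ∀ i, G i →* Module.End F V),
      (∀ i j, i ≠ j → ∀ x y, ρ i x * ρ j y = ρ j y * ρ i x) →
      (∀ U : Submodule F V, (∀ i ∈ S, ∀ x, ∀ u ∈ U, ρ i x u ∈ U) → U = ⊥ ∨ U = ⊤) →
      (∀ i ∈ S, ∃ x ∈ commutator (G i), ρ i x ≠ 1) → ∏ i ∈ S, d i ≤ finrank F V := by
  induction S using Finset.induction_on with
  | empty =>
    intro V _ _ _ _ ρ _ _ _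
    rw [Finset.prod_empty]
    exact Module.finrank_pos
  | insert i S hi ih =>
    intro V _ _ _ _ ρ hcomm hirr hnt
    let ρ' : ι → (∀ j, G j) →* Module.End F V := fun j => (ρ j).comp (Pi.evalMonoidHom G j)
    have hρ'1 : ∀ j (x : G j), ρ' j (Pi.mulSingle j x) = ρ j x := by
      intro j x
      change ρ j (Pi.mulSingle j x j) = ρ j x
      rw [Pi.mulSingle_eq_same]
    obtain ⟨U, hU1, hU2, hU3⟩ := exists_min ρ' S
    have hinv : ∀ j ∈ S, ∀ x, ∀ u ∈ U, ρ j x u ∈ U := by
      intro j hj x u hu
      rw [← hρ'1]
      exact hU2 j hj _ u hu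
    let ρU : ∀ j, G j →* Module.End F U := fun j =>
      if hj : j ∈ S then resRep (ρ j) U (hinv j hj) else 1
    have hρU : ∀ j (_ : j ∈ S) x (u : U), ((ρU j x u : U) : V) = ρ j x u := by
      intro j hj x u
      simp only [ρU, dif_pos hj]
      rfl
    have hρ1 : ∀ j, j ∉ S → ρU j = 1 := by
      intro j hj
      simp only [ρU, dif_neg hj]
    have : Nontrivial U := (Submodule.nontrivial_iff_ne_bot).2 hU1
    have h1 : ∏ j ∈ S, d j ≤ finrank F U := by
      refine ih U ρU ?_ ?_ ?_
      · intro j k hjk x y
        by_cases hj : j ∈ S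
        · by_cases hk : k ∈ S
          · apply LinearMap.ext
            intro u
            apply Subtype.ext
            rw [Module.End.mul_apply, Module.End.mul_apply, hρU j hj, hρU k hk, hρU k hk,
              hρU j hj]
            exact LinearMap.congr_fun (hcomm j k hjk x y) (u : V)
          · rw [hρ1 k hk, MonoidHom.one_apply, mul_one, one_mul]
        · rw [hρ1 j hj, MonoidHom.one_apply, mul_one, one_mul]
      · intro W hW
        have h2 : InvF ρ' S (W.map U.subtype) := by
          rintro j hj x _ ⟨u, hu, rfl⟩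
          exact ⟨ρU j (x j) u, hW j hj (x j) u hu, hρU j hj (x j) u⟩
        have h3 : W.map U.subtype ≤ U := by
          rintro _ ⟨u, _, rfl⟩
          exact u.2
        rcases hU3 _ h2 h3 with h4 | h4
        · left
          rw [eq_bot_iff]
          intro u hu
          have h5 : (u : V) ∈ W.map U.subtype := ⟨u, hu, rfl⟩
          rw [h4, Submodule.mem_bot] at h5
          rw [Submodule.mem_bot]
          exact Subtype.ext h5
        · right
          rw [eq_top_iff]
          intro u _
          have h5 : (u : V) ∈ W.map U.subtype := by rw [h4]; exact u.2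
          obtain ⟨u', hu', h6⟩ := h5
          have h7 : u' = u := Subtype.ext h6
          exact h7 ▸ hu'
      · intro j hj
        by_contra hn
        push Not at hn
        obtain ⟨x, hx, hx1⟩ := hnt j (Finset.mem_insert_of_mem hj)
        refine hx1 (fix_inv ρ hcomm (insert i S) hirr j U hU1 ?_ x hx)
        intro y hy u hu
        have h4 := hρU j hj y ⟨u, hu⟩
        rw [hn y hy] at h4
        exact h4.symm
    have h2 := mul_le hU1 hU2 hU3
    have hci : ∀ j ∈ S, ∀ x y, ρ' i x * ρ' j y = ρ' j y * ρ' i x := by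
      intro j hj x y
      refine hcomm i j ?_ (x i) (y j)
      rintro rfl
      exact hi hj
    have h3 : d i ≤ finrank F (homF ρ' S U) := by
      by_contra h4
      rw [not_le] at h4
      have h5 := hd i (homF ρ' S U) ((homRep ρ' S U i hci).comp (MonoidHom.mulSingle G i)) h4
      have hincl : U.subtype ∈ homF ρ' S U := by
        intro j hj x u hu
        rfl
      obtain ⟨x, hx, hx1⟩ := hnt i (Finset.mem_insert_self i S)
      refine hx1 (fix_inv ρ hcomm (insert i S) hirr i U hU1 ?_ x hx)
      intro y hy u hu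
      have h6 := LinearMap.congr_fun (h5 y hy) ⟨U.subtype, hincl⟩
      have h7 := congrArg (fun f : homF ρ' S U => (f : U →ₗ[F] V) ⟨u, hu⟩) h6
      have h8 : ρ' i (Pi.mulSingle i y) u = u := h7
      rwa [hρ'1] at h8
    rw [Finset.prod_insert hi]
    exact (Nat.mul_le_mul h3 h1).trans h2

/-- **Degree bound** with different groups, over an algebraically closed field. -/
theorem px_zero {F : Type u} [Field F] [IsAlgClosed F] {ι : Type*} {G : ι → Type w}
    [∀ i, Group (G i)] {d : ι → ℕ} (hd : ∀ i, MinDimC.{u, v, w} F (G i) (d i))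
    (hG : ∀ i, ∀ x : commutator (G i), x ∈ commutator (commutator (G i)))
    (l : List ι) (hl : l.Nodup) (hmem : ∀ i, i ∈ l) :
    ∀ (n : ℕ) (V : Type v) [AddCommGroup V] [Module F V] [FiniteDimensional F V]
      (ρ : ∀ i, G i →* Module.End F V),
      (∀ i j, i ≠ j → ∀ x y, ρ i x * ρ j y = ρ j y * ρ i x) → finrank F V = n →
      n < (l.map d).prod → ∀ L : List (Σ i, commutator (G i)), L.map Sigma.fst = l →
        px ρ L = 0 := by
  classical
  intro n
  induction n using Nat.strong_induction_on with
  | _ n ih =>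
    intro V _ _ _ ρ hcomm hn hlt L hL
    by_cases hirr : ∀ U : Submodule F V, (∀ i x, ∀ u ∈ U, ρ i x u ∈ U) → U = ⊥ ∨ U = ⊤
    · rcases subsingleton_or_nontrivial V with hV | hV
      · ext v
        exact Subsingleton.elim _ _
      · by_cases h1 : ∀ i ∈ l.toFinset, ∃ x ∈ commutator (G i), ρ i x ≠ 1
        · have h2 := irr_boundC hd l.toFinset V ρ hcomm
            (fun U hU => hirr U fun i => hU i (List.mem_toFinset.2 (hmem i))) h1
          rw [List.prod_toFinset d hl, hn] at h2
          omega
        · push Not at h1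
          obtain ⟨i, hi, h1⟩ := h1
          rw [List.mem_toFinset, ← hL, List.mem_map] at hi
          obtain ⟨p, hp, rfl⟩ := hi
          apply List.prod_eq_zero
          rw [List.mem_map]
          refine ⟨p, hp, ?_⟩
          rw [h1 _ p.2.2, sub_self]
    · push Not at hirr
      obtain ⟨U, hU', hU1, hU2⟩ := hirr
      have hsum := Submodule.finrank_quotient_add_finrank U
      have hpos1 : 0 < finrank F U := by
        have : Nontrivial U := (Submodule.nontrivial_iff_ne_bot).2 hU1
        exact Module.finrank_pos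
      have hlt1 : finrank F U < finrank F V := Submodule.finrank_lt hU2
      have i1 := ih (finrank F U) (by omega) U (fun i => resRep (ρ i) U (hU' i)) (by
        intro i j hij x y
        apply LinearMap.ext
        intro u
        apply Subtype.ext
        exact LinearMap.congr_fun (hcomm i j hij x y) (u : V)) rfl (by omega)
      have i2 := ih (finrank F (V ⧸ U)) (by omega) (V ⧸ U) (fun i => quotRep (ρ i) U (hU' i)) (by
        intro i j hij x y
        apply LinearMap.ext
        intro u
        induction u using Submodule.Quotient.induction_on with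
        | _ u =>
          have h1 := LinearMap.congr_fun (hcomm i j hij x y) u
          exact congrArg (Submodule.Quotient.mk (p := U)) h1) rfl (by omega)
      refine px_ext ρ hcomm hG U l hl ?_ ?_ L hL
      · intro L hL v
        have h3 := LinearMap.congr_fun (i2 L hL) (Submodule.Quotient.mk v)
        rw [px_quot, LinearMap.zero_apply, Submodule.Quotient.mk_eq_zero] at h3
        exact h3
      · intro L hL v hv
        have h3 := congrArg Subtype.val (LinearMap.congr_fun (i1 L hL) ⟨v, hv⟩)
        rw [px_res] at h3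
        exact h3

/-- **Degree bound** with different groups: commuting homomorphisms to a group, any field. -/
theorem prodC_zero {F : Type u} [Field F] (K : Type u) [Field K] [Algebra F K] [IsAlgClosed K]
    {Γ : Type w} [Group Γ] {V : Type v} [AddCommGroup V] [Module F V] [FiniteDimensional F V]
    (ρ : Γ →* Module.End F V) {r : ℕ} {G : Fin r → Type w} [∀ i, Group (G i)] {d : Fin r → ℕ}
    (hd : ∀ i, MinDimC.{u, max v u, w} K (G i) (d i))
    (hG : ∀ i, ∀ x : commutator (G i), x ∈ commutator (commutator (G i)))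
    (f : ∀ i, G i →* Γ) (hf : ∀ i j, i ≠ j → ∀ x y, f i x * f j y = f j y * f i x)
    (hdim : finrank F V < ∏ i, d i) (x : ∀ i, G i) (hx : ∀ i, x i ∈ commutator (G i)) :
    (List.ofFn fun i => ρ (f i (x i)) - 1).prod = 0 := by
  let σ : ∀ i, G i →* Module.End K (TensorProduct F K V) := fun i => (bc K ρ).comp (f i)
  have h1 := px_zero hd hG (List.finRange r) (List.nodup_finRange r) (List.mem_finRange)
    (finrank K (TensorProduct F K V)) (TensorProduct F K V) σ (by
      intro i j hij x y
      change bc K ρ (f i x) * bc K ρ (f j y) = bc K ρ (f j y) * bc K ρ (f i x)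
      rw [← map_mul, ← map_mul, hf i j hij]) rfl
    (by
      rw [Module.finrank_baseChange, ← List.ofFn_eq_map, List.prod_ofFn]
      exact hdim)
    ((List.finRange r).map fun i => ⟨i, ⟨x i, hx i⟩⟩) (by
      rw [List.map_map]
      exact List.map_id _)
  have h2 : ∀ (l : List (Fin r)) (v : V),
      px σ (l.map fun i => ⟨i, ⟨x i, hx i⟩⟩) ((1 : K) ⊗ₜ[F] v) =
        (1 : K) ⊗ₜ[F] ((l.map fun i => ρ (f i (x i)) - 1).prod v) := by
    intro l v
    induction l with
    | nil => rfl
    | cons i l ih =>
      rw [List.map_cons, List.map_cons, px_cons, List.prod_cons, Module.End.mul_apply,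
        Module.End.mul_apply, ih, LinearMap.sub_apply, LinearMap.sub_apply, Module.End.one_apply,
        Module.End.one_apply, TensorProduct.tmul_sub]
      rfl
  rw [List.ofFn_eq_map]
  ext v
  have h3 := h2 (List.finRange r) v
  rw [h1, LinearMap.zero_apply] at h3
  apply Module.FaithfullyFlat.tensorProduct_mk_injective (A := F) (B := K) V
  change (1 : K) ⊗ₜ[F] _ = (1 : K) ⊗ₜ[F] _
  rw [← h3, LinearMap.zero_apply, TensorProduct.tmul_zero]

end Pool.Agent.H.MP_59b15d_al.H52E
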