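/-
Degree bound for the mapping class group with blocks of two and of three handles.
-/
import Pool.Agent.H.MP_59b15d_al.h11d.Dim4
import Pool.Agent.H.MP_59b15d_al.h52e.DegX
import Pool.Agent.H.MP_59b15d_al.lin.Main

set_option autoImplicit false

namespace Pool.Agent.H.MP_59b15d_al.H52E

universe u v w

open Module Pool.Agent.H.MP_59b15d_al.Lin
open Pool.MP_59b15d_al.H24T Pool.MP_59b15d_al.H76R Pool.MP_59b15d_al.H73E
open Pool.MP_59b15d_al.H60G Pool.MP_59b15d_al.H40L Pool.MP_59b15d_al.H11D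
open scoped commutatorElement

/-- The commutator subgroup of a subgroup. -/
lemma map_comm_sub {Γ : Type*} [Group Γ] (H : Subgroup Γ) :
    (commutator H).map H.subtype = ⁅H, H⁆ := by
  rw [commutator_def, Subgroup.map_commutator, ← MonoidHom.range_eq_map, Subgroup.range_subtype]

lemma perf_sub {Γ : Type*} [Group Γ] {H : Subgroup Γ} (hH : H ≤ ⁅H, H⁆) (x : H) :
    x ∈ commutator H := by
  have h1 := hH x.2
  rw [← map_comm_sub] at h1
  obtain ⟨y, hy, hyx⟩ := h1
  have h2 : y = x := Subtype.ext hyx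
  exact h2 ▸ hy

section block

variable {m : ℕ} {G : Type w} [Group G] {a b : Fin m → G} (h : IsSurf a b)

/-- The chain of the block of two handles. -/
noncomputable def ch2 : Fin 5 → Pool.MP_59b15d_al.H60G.MR h 0 2 :=
  ![⟨TrA h 0, TrA_mem h (by omega) (by omega)⟩, ⟨TrB h 0, TrB_mem h (by omega) (by omega)⟩,
    ⟨TrC h 0, TrC_mem h (by omega) (by omega)⟩, ⟨TrB h 1, TrB_mem h (by omega) (by omega)⟩,
    ⟨TrA h 1, TrA_mem h (by omega) (by omega)⟩]

lemma ch2_val (i : Fin 5) : (ch2 h i : MulAut G) =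
    (![TrA h 0, TrB h 0, TrC h 0, TrB h 1, TrA h 1] : Fin 5 → MulAut G) i := by
  fin_cases i <;> rfl

theorem gr_ch2 (hm : 2 ≤ m) : Gr c5 (ch2 h) := by
  have T := treeGrp h
  constructor
  · intro i j hij
    apply Subtype.ext
    rw [Subgroup.coe_mul, Subgroup.coe_mul, Subgroup.coe_mul, Subgroup.coe_mul, ch2_val, ch2_val]
    fin_cases i <;> fin_cases j <;> first
      | exact absurd hij (by decide)
      | exact T.AB 0 (by omega)
      | exact (T.AB 0 (by omega)).symm
      | exact T.AB 1 (by omega)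
      | exact (T.AB 1 (by omega)).symm
      | exact T.BC 0 (by omega)
      | exact (T.BC 0 (by omega)).symm
      | exact T.CB 0 (by omega)
      | exact (T.CB 0 (by omega)).symm
  · intro i j hij hn
    apply Subtype.ext
    rw [Subgroup.coe_mul, Subgroup.coe_mul, ch2_val, ch2_val]
    fin_cases i <;> fin_cases j <;> first
      | exact absurd rfl hij
      | exact absurd (by decide) hn
      | exact T.cAC 0 0 (by omega) (by omega)
      | exact (T.cAC 0 0 (by omega) (by omega)).symm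
      | exact T.cAC 1 0 (by omega) (by omega)
      | exact (T.cAC 1 0 (by omega) (by omega)).symm
      | exact T.cAB 0 1 (by omega) (by omega) (by omega)
      | exact (T.cAB 0 1 (by omega) (by omega) (by omega)).symm
      | exact T.cAB 1 0 (by omega) (by omega) (by omega)
      | exact (T.cAB 1 0 (by omega) (by omega) (by omega)).symm
      | exact T.cAA 0 1 (by omega) (by omega)
      | exact T.cAA 1 0 (by omega) (by omega)
      | exact T.cBB 0 1 (by omega) (by omega)
      | exact T.cBB 1 0 (by omega) (by omega)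

theorem gen_ch2 : Subgroup.closure (Set.range (ch2 h)) = ⊤ := by
  apply closure_eq_top_of_val
  refine Eq.trans ?_ (TRR_eq h 0 2)
  rw [TRR]
  congr 1
  ext T
  constructor
  · rintro ⟨i, rfl⟩
    change (ch2 h i : MulAut G) ∈ _
    rw [ch2_val]
    fin_cases i
    · exact Or.inl ⟨0, by omega, by omega, rfl⟩
    · exact Or.inr (Or.inl ⟨0, by omega, by omega, rfl⟩)
    · exact Or.inr (Or.inr ⟨0, by omega, by omega, rfl⟩)
    · exact Or.inr (Or.inl ⟨1, by omega, by omega, rfl⟩)
    · exact Or.inl ⟨1, by omega, by omega, rfl⟩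
  · rintro (⟨k, _, hk, rfl⟩ | ⟨k, _, hk, rfl⟩ | ⟨k, _, hk, rfl⟩)
    · rcases (by omega : k = 0 ∨ k = 1) with rfl | rfl
      · exact ⟨0, rfl⟩
      · exact ⟨4, rfl⟩
    · rcases (by omega : k = 0 ∨ k = 1) with rfl | rfl
      · exact ⟨1, rfl⟩
      · exact ⟨3, rfl⟩
    · have hk0 : k = 0 := by omega
      subst hk0
      exact ⟨2, rfl⟩

/-- The dimension assigned to a block of `n` handles. -/
def dn (n : ℕ) : ℕ := if n = 2 then 4 else 6

/-- The blocks of two and of three handles. -/
theorem blk_dn {n : ℕ} (hn : n = 2 ∨ n = 3) (hnm : n ≤ m) (K : Type u) [Field K]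
    [IsAlgClosed K] : MinDimC.{u, v, w} K (Pool.MP_59b15d_al.H60G.MR h 0 n) (dn n) ∧
      ∀ x : commutator (Pool.MP_59b15d_al.H60G.MR h 0 n),
        x ∈ commutator (commutator (Pool.MP_59b15d_al.H60G.MR h 0 n)) := by
  rcases hn with rfl | rfl
  · refine ⟨?_, perf_sub (chain_perfect (gr_ch2 h hnm) (gen_ch2 h))⟩
    intro W _ _ _ σ hW
    exact chain_dim4 (gr_ch2 h hnm) (gen_ch2 h) W σ hW
  · refine ⟨minDimC_of_minDim (minDim_MR h hnm K), ?_⟩
    have h1 : commutator (Pool.MP_59b15d_al.H60G.MR h 0 3) = ⊤ := by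
      rw [eq_top_iff]
      exact fun x _ => MR3_perfect h (lo := 0) (by omega) x
    apply perf_sub
    rw [h1, ← commutator_def, h1]

end block

section main

variable {m : ℕ} {G : Type w} [Group G] {a b : Fin m → G} (h : IsSurf a b)

/-- Elements of the commutator subgroup of a block come from the first block. -/
theorem blk_conj (n lo : ℕ) (hm : lo + n ≤ m) : ∃ c ∈ Pool.MP_59b15d_al.H60G.MR h 0 m,
    (∀ y ∈ Pool.MP_59b15d_al.H60G.MR h 0 n,
      c * y * c⁻¹ ∈ Pool.MP_59b15d_al.H60G.MR h lo (lo + n)) ∧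
    ∀ x ∈ ⁅Pool.MP_59b15d_al.H60G.MR h lo (lo + n), Pool.MP_59b15d_al.H60G.MR h lo (lo + n)⁆,
      ∃ y ∈ commutator (Pool.MP_59b15d_al.H60G.MR h 0 n),
        c * ((y : Pool.MP_59b15d_al.H60G.MR h 0 n) : MulAut G) * c⁻¹ = x := by
  obtain ⟨β, b1, b2, -, -⟩ := exists_rot h n lo (by omega)
  have e := b2 0 n (by omega) le_rfl
  rw [show (0 : ℕ) + lo = lo by omega, show n + lo = lo + n by omega] at e
  refine ⟨β, MR_mono h le_rfl (by omega) b1, ?_, ?_⟩
  · intro y hy
    rw [← e]
    exact ⟨y, hy, rfl⟩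
  · intro x hx
    rw [← e, ← Subgroup.map_commutator] at hx
    obtain ⟨z, hz, rfl⟩ := hx
    rw [← map_comm_sub] at hz
    obtain ⟨y, hy, rfl⟩ := hz
    exact ⟨y, hy, rfl⟩

/-- The number of the handles of the block `k`: `t` blocks of two handles, then blocks of three. -/
def nb (t k : ℕ) : ℕ := if k < t then 2 else 3

/-- The first handle of the block `k`. -/
def lb (t k : ℕ) : ℕ := if k < t then 2 * k else 2 * t + 3 * (k - t)

lemma nb_or (t k : ℕ) : nb t k = 2 ∨ nb t k = 3 := by
  unfold nb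
  split_ifs
  · exact Or.inl rfl
  · exact Or.inr rfl

lemma lb_le {t s k : ℕ} (hk : k < t + s) : lb t k + nb t k ≤ 2 * t + 3 * s := by
  unfold lb nb
  split_ifs <;> omega

lemma lb_lt {t k l : ℕ} (hkl : k < l) : lb t k + nb t k ≤ lb t l := by
  unfold lb nb
  split_ifs <;> omega

/-- **Degree bound** with `t` blocks of two handles followed by `s` blocks of three handles. -/
theorem deg_mixed {F : Type u} [Field F] {t s : ℕ} (hm : 2 * t + 3 * s ≤ m)
    {V : Type v} [AddCommGroup V] [Module F V] [FiniteDimensional F V]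
    (ρ : MCG a b →* Module.End F V) (hdim : finrank F V < 4 ^ t * 6 ^ s) (x : ℕ → MCG a b)
    (hx : ∀ k, k < t + s → (x k : MulAut G) ∈
      ⁅Pool.MP_59b15d_al.H60G.MR h (lb t k) (lb t k + nb t k),
        Pool.MP_59b15d_al.H60G.MR h (lb t k) (lb t k + nb t k)⁆) :
    ((List.range (t + s)).map fun k => ρ (x k) - 1).prod = 0 := by
  have hc := fun k : Fin (t + s) => blk_conj h (nb t k) (lb t k) ((lb_le k.2).trans hm)
  choose c hc1 hc2 hc3 using hc
  let c' : Fin (t + s) → MCG a b := fun k => ⟨c k, MR_le_MCG h 0 m (hc1 k)⟩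
  let f : ∀ k : Fin (t + s), Pool.MP_59b15d_al.H60G.MR h 0 (nb t k) →* MCG a b := fun k =>
    (MulAut.conj (c' k)).toMonoidHom.comp (Subgroup.inclusion (MR_le_MCG h 0 (nb t k)))
  have hfval : ∀ (k : Fin (t + s)) (y : Pool.MP_59b15d_al.H60G.MR h 0 (nb t k)),
      ((f k y : MCG a b) : MulAut G) = c k * y * (c k)⁻¹ := fun k y => rfl
  have hfmem : ∀ (k : Fin (t + s)) (y : Pool.MP_59b15d_al.H60G.MR h 0 (nb t k)),
      ((f k y : MCG a b) : MulAut G) ∈
        Pool.MP_59b15d_al.H60G.MR h (lb t k) (lb t k + nb t k) := by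
    intro k y
    rw [hfval]
    exact hc2 k y y.2
  have hex : ∀ k : Fin (t + s), ∃ y ∈ commutator (Pool.MP_59b15d_al.H60G.MR h 0 (nb t k)),
      f k y = x k := by
    intro k
    obtain ⟨y, hy, hyx⟩ := hc3 k (x k) (hx k k.2)
    exact ⟨y, hy, Subtype.ext hyx⟩
  choose y hy hyx using hex
  have hblk := fun k : Fin (t + s) => blk_dn.{u, max v u, w} h (nb_or t k)
    (by have := (lb_le k.2).trans hm; omega) (AlgebraicClosure F)
  have h1 := prodC_zero (AlgebraicClosure F) ρ (fun k => (hblk k).1) (fun k => (hblk k).2) f (by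
      intro i j hij z w
      apply Subtype.ext
      have hij' : (i : ℕ) ≠ j := fun h => hij (Fin.ext h)
      rcases Nat.lt_or_gt_of_ne hij' with hlt | hlt
      · exact Lin.MR_comm h (lb_lt hlt) (hfmem i z) (hfmem j w)
      · exact (Lin.MR_comm h (lb_lt hlt) (hfmem j w) (hfmem i z)).symm) (by
      rw [Fin.prod_univ_add]
      have e1 : ∀ i : Fin t, dn (nb t (Fin.castAdd s i : Fin (t + s))) = 4 := by
        intro i
        rw [Fin.val_castAdd, nb, if_pos i.2]
        rfl
      have e2 : ∀ i : Fin s, dn (nb t (Fin.natAdd t i : Fin (t + s))) = 6 := by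
        intro i
        rw [Fin.val_natAdd, nb, if_neg (by omega)]
        rfl
      simp only [e1, e2, Finset.prod_const, Finset.card_univ, Fintype.card_fin]
      exact hdim) y hy
  rw [List.ofFn_eq_map] at h1
  rw [← h1, ← List.map_coe_finRange_eq_range, List.map_map]
  congr 1
  refine List.map_congr_left fun k _ => ?_
  rw [Function.comp_apply, hyx k]

/-- The elements of a block of three handles are products of commutators. -/
theorem MR3_comm {lo : ℕ} (hlo : lo + 3 ≤ m) {x : MulAut G}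
    (hx : x ∈ Pool.MP_59b15d_al.H60G.MR h lo (lo + 3)) :
    x ∈ ⁅Pool.MP_59b15d_al.H60G.MR h lo (lo + 3), Pool.MP_59b15d_al.H60G.MR h lo (lo + 3)⁆ := by
  rw [← map_comm_sub]
  exact ⟨⟨x, hx⟩, MR3_perfect h (by omega) ⟨x, hx⟩, rfl⟩

end main

end Pool.Agent.H.MP_59b15d_al.H52E
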