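/-
From irreducible representations to completely reducible and to arbitrary representations.
-/
import Pool.Agent.H.MP_59b15d_al.lin.Unip

set_option autoImplicit false

namespace Pool.Agent.H.MP_59b15d_al.H52E

universe u v w

open Module Pool.Agent.H.MP_59b15d_al.Lin

section

variable {F : Type u} [Field F] {Γ : Type w} [Group Γ]

/-- The representation has no invariant subspaces besides `⊥` and `⊤`. -/
def Irr {V : Type v} [AddCommGroup V] [Module F V] (ρ : Γ →* Module.End F V) : Prop :=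
  ∀ U : Submodule F V, (∀ g, ∀ u ∈ U, ρ g u ∈ U) → U = ⊥ ∨ U = ⊤

/-- A nonzero invariant subspace of finite dimension contains an irreducible one. -/
theorem exists_irr {V : Type v} [AddCommGroup V] [Module F V] [FiniteDimensional F V]
    (ρ : Γ →* Module.End F V) (W : Submodule F V) (hW : ∀ g, ∀ u ∈ W, ρ g u ∈ W) (hne : W ≠ ⊥) :
    ∃ (U : Submodule F V) (hU : ∀ g, ∀ u ∈ U, ρ g u ∈ U), U ≤ W ∧ U ≠ ⊥ ∧ Irr (resW ρ U hU) := by
  classical
  let P : ℕ → Prop := fun n => ∃ U : Submodule F V, (∀ g, ∀ u ∈ U, ρ g u ∈ U) ∧ U ≤ W ∧ U ≠ ⊥ ∧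
    finrank F U = n
  have hP : ∃ n, P n := ⟨_, W, hW, le_rfl, hne, rfl⟩
  obtain ⟨U, hU, hUW, hU0, hUn⟩ := Nat.find_spec hP
  refine ⟨U, hU, hUW, hU0, fun X hX => ?_⟩
  by_cases hX0 : X = ⊥
  · exact Or.inl hX0
  · right
    have h1 : P (finrank F (X.map U.subtype)) := by
      refine ⟨X.map U.subtype, ?_, ?_, ?_, rfl⟩
      · rintro g _ ⟨x, hx, rfl⟩
        exact ⟨resW ρ U hU g x, hX g x hx, rfl⟩
      · rintro _ ⟨x, _, rfl⟩
        exact hUW x.2
      · intro h0
        apply hX0
        rw [eq_bot_iff]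
        intro x hx
        have h4 : (x : V) ∈ X.map U.subtype := ⟨x, hx, rfl⟩
        rw [h0, Submodule.mem_bot] at h4
        exact (Submodule.mem_bot F).2 (Subtype.ext h4)
    have h2 := Nat.find_min' hP h1
    rw [← hUn] at h2
    have h3 : finrank F (X.map U.subtype) = finrank F X :=
      (Submodule.equivMapOfInjective U.subtype U.injective_subtype X).finrank_eq.symm
    rw [h3] at h2
    exact Submodule.eq_top_of_finrank_eq (le_antisymm (Submodule.finrank_le X) h2)

/-- If the elements of a normal subgroup act trivially in all irreducible representations of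
dimension at most `D`, then they act trivially in all completely reducible ones. -/
theorem kill_of_irr {T : Subgroup Γ} [hTn : T.Normal] {D : ℕ}
    (hT : ∀ (V : Type v) [AddCommGroup V] [Module F V] [FiniteDimensional F V]
      (ρ : Γ →* Module.End F V), finrank F V ≤ D → Irr ρ → ∀ φ ∈ T, ρ φ = 1)
    (V : Type v) [AddCommGroup V] [Module F V] [FiniteDimensional F V]
    (ρ : Γ →* Module.End F V) (hD : finrank F V ≤ D) (hρ : CompRed ρ) : ∀ φ ∈ T, ρ φ = 1 := by
  let E : Submodule F V :=
    { carrier := {v | ∀ φ ∈ T, ρ φ v = v}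
      add_mem' := by
        intro x y hx hy φ hφ
        rw [map_add, hx φ hφ, hy φ hφ]
      zero_mem' := fun φ _ => map_zero _
      smul_mem' := by
        intro c x hx φ hφ
        rw [map_smul, hx φ hφ] }
  have hE : ∀ g, ∀ u ∈ E, ρ g u ∈ E := by
    intro g u hu φ hφ
    have h1 : φ * g = g * (g⁻¹ * φ * g) := by group
    have h2 : g⁻¹ * φ * g ∈ T := by
      have := hTn.conj_mem φ hφ g⁻¹
      rwa [inv_inv] at this
    rw [← Module.End.mul_apply, ← map_mul, h1, map_mul, Module.End.mul_apply, hu _ h2]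
  obtain ⟨W, hW, hc⟩ := hρ E hE
  have hW0 : W = ⊥ := by
    by_contra hne
    obtain ⟨U, hU, hUW, hU0, hirr⟩ := exists_irr ρ W hW hne
    apply hU0
    rw [eq_bot_iff, ← hc.inf_eq_bot]
    refine le_inf ?_ hUW
    intro u hu φ hφ
    have h1 := hT U (resW ρ U hU) ((Submodule.finrank_le U).trans hD) hirr φ hφ
    have h2 := congrArg Subtype.val (LinearMap.congr_fun h1 ⟨u, hu⟩)
    exact h2
  have hE1 : E = ⊤ := by
    have h1 := hc.sup_eq_top
    rwa [hW0, sup_bot_eq] at h1
  intro φ hφ
  ext v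
  have h1 : v ∈ E := by rw [hE1]; exact Submodule.mem_top
  exact h1 φ hφ

/-- The same with arbitrary representations: the elements of the normal subgroup act unipotently. -/
theorem unip_of_irr {T : Subgroup Γ} [T.Normal] {D : ℕ}
    (hT : ∀ (V : Type v) [AddCommGroup V] [Module F V] [FiniteDimensional F V]
      (ρ : Γ →* Module.End F V), finrank F V ≤ D → Irr ρ → ∀ φ ∈ T, ρ φ = 1)
    (V : Type v) [AddCommGroup V] [Module F V] [FiniteDimensional F V]
    (ρ : Γ →* Module.End F V) (hD : finrank F V ≤ D) (l : List Γ) (hl : ∀ φ ∈ l, φ ∈ T)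
    (hlen : finrank F V ≤ l.length) : (l.map (fun φ => ρ φ - 1)).prod = 0 :=
  unip_of (T := (T : Set Γ)) (D := D)
    (fun V _ _ _ ρ hD hρ => kill_of_irr hT V ρ hD hρ) (finrank F V) V ρ le_rfl hD l hl hlen

end

end Pool.Agent.H.MP_59b15d_al.H52E
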