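/-
Degree bound: if `r` perfect subgroups commute pairwise and have no nontrivial representation of
dimension less than `d`, then on a space of dimension less than `d ^ r` every product
`(x_1 - 1) ⋯ (x_r - 1)` with `x_i` in the `i`-th subgroup vanishes.
-/
import Pool.Agent.H.MP_59b15d_al.lin.Red

set_option autoImplicit false

namespace Pool.Agent.H.MP_59b15d_al.H52E

universe u v w

open Module Pool.Agent.H.MP_59b15d_al.Lin

section

variable {F : Type u} [Field F] {G : Type w} [Group G] {ι : Type*}
variable {V : Type v} [AddCommGroup V] [Module F V]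

/-- The product of the operators `ρ i x - 1` along a list of pairs `(i, x)`. -/
def pr (ρ : ι → G →* Module.End F V) (L : List (ι × G)) : Module.End F V :=
  (L.map fun p => ρ p.1 p.2 - 1).prod

@[simp] lemma pr_nil (ρ : ι → G →* Module.End F V) : pr ρ [] = 1 := rfl

@[simp] lemma pr_cons (ρ : ι → G →* Module.End F V) (p : ι × G) (L : List (ι × G)) :
    pr ρ (p :: L) = (ρ p.1 p.2 - 1) * pr ρ L := by
  rw [pr, List.map_cons, List.prod_cons, pr]

/-- The product of the augmentation spaces. -/
def prS (ρ : ι → G →* Module.End F V) (l : List ι) : Submodule F (Module.End F V) :=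
  (l.map fun i => aug (ρ i)).prod

lemma prS_cons (ρ : ι → G →* Module.End F V) (i : ι) (l : List ι) :
    prS ρ (i :: l) = aug (ρ i) * prS ρ l := by
  rw [prS, List.map_cons, List.prod_cons, prS]

lemma pr_mem (ρ : ι → G →* Module.End F V) (L : List (ι × G)) :
    pr ρ L ∈ prS ρ (L.map Prod.fst) := by
  induction L with
  | nil => exact Submodule.one_le.1 le_rfl
  | cons p L ih =>
    rw [pr_cons, List.map_cons, prS_cons]
    exact Submodule.mul_mem_mul (Submodule.subset_span ⟨p.2, rfl⟩) ih

/-- The product of the augmentation spaces is spanned by the products of the operators. -/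
lemma prS_le (ρ : ι → G →* Module.End F V) (l : List ι) (Φ : Submodule F (Module.End F V))
    (h : ∀ L : List (ι × G), L.map Prod.fst = l → pr ρ L ∈ Φ) : prS ρ l ≤ Φ := by
  have key : prS ρ l = Submodule.span F {A | ∃ L : List (ι × G), L.map Prod.fst = l ∧ pr ρ L = A} := by
    clear h
    induction l with
    | nil =>
      have h1 : {A | ∃ L : List (ι × G), L.map Prod.fst = [] ∧ pr ρ L = A} = {1} := by
        ext A
        constructor
        · rintro ⟨L, hL, rfl⟩
          rw [List.map_eq_nil_iff] at hL
          subst hL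
          rfl
        · rintro rfl
          exact ⟨[], rfl, rfl⟩
      rw [h1, ← Submodule.one_eq_span]
      rfl
    | cons i l ih =>
      rw [prS_cons, ih, aug, Submodule.span_mul_span]
      congr 1
      ext A
      constructor
      · rintro ⟨_, ⟨x, rfl⟩, _, ⟨L, hL, rfl⟩, rfl⟩
        exact ⟨(i, x) :: L, by rw [List.map_cons, hL], by rw [pr_cons]⟩
      · rintro ⟨L, hL, rfl⟩
        rcases L with _ | ⟨p, L⟩
        · simp at hL
        · rw [List.map_cons, List.cons.injEq] at hL
          obtain ⟨h1, h2⟩ := hL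
          subst h1
          exact ⟨_, ⟨p.2, rfl⟩, _, ⟨L, h2, rfl⟩, (pr_cons ρ p L).symm⟩
  rw [key, Submodule.span_le]
  rintro _ ⟨L, hL, rfl⟩
  exact h L hL

lemma aug_comm (ρ : ι → G →* Module.End F V) {i j : ι}
    (hcomm : ∀ x y, ρ i x * ρ j y = ρ j y * ρ i x) :
    aug (ρ i) * aug (ρ j) = aug (ρ j) * aug (ρ i) := by
  apply le_antisymm
  · rw [aug, aug, Submodule.span_mul_span, Submodule.span_mul_span, Submodule.span_le]
    rintro _ ⟨_, ⟨x, rfl⟩, _, ⟨y, rfl⟩, rfl⟩
    refine Submodule.subset_span ⟨_, ⟨y, rfl⟩, _, ⟨x, rfl⟩, ?_⟩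
    have := hcomm x y
    simp only [sub_mul, mul_sub, this, one_mul, mul_one]
    abel
  · rw [aug, aug, Submodule.span_mul_span, Submodule.span_mul_span, Submodule.span_le]
    rintro _ ⟨_, ⟨x, rfl⟩, _, ⟨y, rfl⟩, rfl⟩
    refine Submodule.subset_span ⟨_, ⟨y, rfl⟩, _, ⟨x, rfl⟩, ?_⟩
    have := hcomm y x
    simp only [sub_mul, mul_sub, this, one_mul, mul_one]
    abel

lemma prS_comm (ρ : ι → G →* Module.End F V)
    (hcomm : ∀ i j, i ≠ j → ∀ x y, ρ i x * ρ j y = ρ j y * ρ i x) (i : ι) (l : List ι)
    (hi : i ∉ l) : aug (ρ i) * prS ρ l = prS ρ l * aug (ρ i) := by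
  induction l with
  | nil => rw [prS, List.map_nil, List.prod_nil, mul_one, one_mul]
  | cons j l ih =>
    rw [List.mem_cons, not_or] at hi
    rw [prS_cons, ← mul_assoc, aug_comm ρ (hcomm i j hi.1), mul_assoc, ih hi.2, mul_assoc]

/-- For perfect groups the product is idempotent. -/
lemma prS_idem (ρ : ι → G →* Module.End F V)
    (hcomm : ∀ i j, i ≠ j → ∀ x y, ρ i x * ρ j y = ρ j y * ρ i x)
    (hG : ∀ x : G, x ∈ commutator G) (l : List ι) (hl : l.Nodup) :
    prS ρ l ≤ prS ρ l * prS ρ l := by
  induction l with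
  | nil => rw [prS, List.map_nil, List.prod_nil, mul_one]
  | cons i l ih =>
    rw [List.nodup_cons] at hl
    rw [prS_cons]
    calc aug (ρ i) * prS ρ l ≤ (aug (ρ i) * aug (ρ i)) * (prS ρ l * prS ρ l) :=
          mul_le_mul' (aug_le _ hG) (ih hl.2)
      _ = aug (ρ i) * (aug (ρ i) * prS ρ l) * prS ρ l := by simp only [mul_assoc]
      _ = aug (ρ i) * (prS ρ l * aug (ρ i)) * prS ρ l := by rw [prS_comm ρ hcomm i l hl.1]
      _ = (aug (ρ i) * prS ρ l) * (aug (ρ i) * prS ρ l) := by simp only [mul_assoc]

/-- If the products vanish on an invariant subspace and on the quotient then they vanish. -/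
lemma pr_ext (ρ : ι → G →* Module.End F V)
    (hcomm : ∀ i j, i ≠ j → ∀ x y, ρ i x * ρ j y = ρ j y * ρ i x)
    (hG : ∀ x : G, x ∈ commutator G) (U : Submodule F V) (l : List ι) (hl : l.Nodup)
    (h1 : ∀ L : List (ι × G), L.map Prod.fst = l → ∀ v, pr ρ L v ∈ U)
    (h2 : ∀ L : List (ι × G), L.map Prod.fst = l → ∀ v ∈ U, pr ρ L v = 0) :
    ∀ L : List (ι × G), L.map Prod.fst = l → pr ρ L = 0 := by
  intro L hL
  let Φ : Submodule F (Module.End F V) :=
    { carrier := {A | (∀ v, A v ∈ U) ∧ ∀ v ∈ U, A v = 0}
      add_mem' := by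
        rintro A B ⟨hA, hA'⟩ ⟨hB, hB'⟩
        exact ⟨fun v => U.add_mem (hA v) (hB v), fun v hv => by
          rw [LinearMap.add_apply, hA' v hv, hB' v hv, add_zero]⟩
      zero_mem' := ⟨fun v => U.zero_mem, fun v _ => rfl⟩
      smul_mem' := by
        rintro c A ⟨hA, hA'⟩
        exact ⟨fun v => U.smul_mem _ (hA v), fun v hv => by
          rw [LinearMap.smul_apply, hA' v hv, smul_zero]⟩ }
  have h3 : prS ρ l ≤ Φ := prS_le ρ l Φ fun L hL => ⟨h1 L hL, h2 L hL⟩
  have hz : prS ρ l * prS ρ l = ⊥ := by
    rw [eq_bot_iff, Submodule.mul_le]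
    intro A hA B hB
    rw [Submodule.mem_bot]
    ext v
    exact (h3 hA).2 _ ((h3 hB).1 v)
  have h4 := prS_idem ρ hcomm hG l hl (hL ▸ pr_mem ρ L)
  rw [hz, Submodule.mem_bot] at h4
  exact h4

lemma pr_res (ρ : ι → G →* Module.End F V) (U : Submodule F V)
    (hU : ∀ i x, ∀ u ∈ U, ρ i x u ∈ U) (L : List (ι × G)) (u : U) :
    ((pr (fun i => resRep (ρ i) U (hU i)) L u : U) : V) = pr ρ L u := by
  induction L with
  | nil => rfl
  | cons p L ih =>
    rw [pr_cons, pr_cons, Module.End.mul_apply, Module.End.mul_apply, LinearMap.sub_apply,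
      LinearMap.sub_apply, Module.End.one_apply, Module.End.one_apply, Submodule.coe_sub,
      resRep_apply, ih]

lemma pr_quot (ρ : ι → G →* Module.End F V) (U : Submodule F V)
    (hU : ∀ i x, ∀ u ∈ U, ρ i x u ∈ U) (L : List (ι × G)) (u : V) :
    pr (fun i => quotRep (ρ i) U (hU i)) L (Submodule.Quotient.mk u) =
      Submodule.Quotient.mk (pr ρ L u) := by
  induction L with
  | nil => rfl
  | cons p L ih =>
    rw [pr_cons, pr_cons, Module.End.mul_apply, Module.End.mul_apply, LinearMap.sub_apply,
      LinearMap.sub_apply, Module.End.one_apply, Module.End.one_apply, ih, quotRep_mk,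
      Submodule.Quotient.mk_sub]

end

/-- **Degree bound**, over an algebraically closed field. -/
theorem pr_zero {F : Type u} [Field F] [IsAlgClosed F] {G : Type w} [Group G] {ι : Type*}
    {d : ℕ} (hd : MinDim.{u, v, w} F G d) (hG : ∀ x : G, x ∈ commutator G)
    (l : List ι) (hl : l.Nodup) (hmem : ∀ i, i ∈ l) :
    ∀ (n : ℕ) (V : Type v) [AddCommGroup V] [Module F V] [FiniteDimensional F V]
      (ρ : ι → G →* Module.End F V),
      (∀ i j, i ≠ j → ∀ x y, ρ i x * ρ j y = ρ j y * ρ i x) → finrank F V = n →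
      n < d ^ l.length → ∀ L : List (ι × G), L.map Prod.fst = l → pr ρ L = 0 := by
  classical
  intro n
  induction n using Nat.strong_induction_on with
  | _ n ih =>
    intro V _ _ _ ρ hcomm hn hlt L hL
    by_cases hirr : ∀ U : Submodule F V, InvF ρ l.toFinset U → U = ⊥ ∨ U = ⊤
    · rcases subsingleton_or_nontrivial V with hV | hV
      · ext v
        exact Subsingleton.elim _ _
      · by_cases h1 : ∀ i ∈ l.toFinset, ρ i ≠ 1
        · have h2 := irr_bound hd l.toFinset V ρ hcomm hirr h1
          rw [List.toFinset_card_of_nodup hl, hn] at h2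
          omega
        · push Not at h1
          obtain ⟨i, hi, h1⟩ := h1
          rw [List.mem_toFinset, ← hL, List.mem_map] at hi
          obtain ⟨p, hp, rfl⟩ := hi
          apply List.prod_eq_zero
          rw [List.mem_map]
          refine ⟨p, hp, ?_⟩
          rw [h1, MonoidHom.one_apply, sub_self]
    · push Not at hirr
      obtain ⟨U, hU, hU1, hU2⟩ := hirr
      have hU' : ∀ i x, ∀ u ∈ U, ρ i x u ∈ U :=
        fun i x u hu => hU i (List.mem_toFinset.2 (hmem i)) x u hu
      have hsum := Submodule.finrank_quotient_add_finrank U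
      have hpos1 : 0 < finrank F U := by
        have : Nontrivial U := (Submodule.nontrivial_iff_ne_bot).2 hU1
        exact Module.finrank_pos
      have hlt1 : finrank F U < finrank F V := Submodule.finrank_lt hU2
      have i1 := ih (finrank F U) (by omega) U (fun i => resRep (ρ i) U (hU' i)) (by
        intro i j hij x y
        apply LinearMap.ext
        intro u
        apply Subtype.ext
        exact LinearMap.congr_fun (hcomm i j hij x y) (u : V)) rfl (by omega)
      have i2 := ih (finrank F (V ⧸ U)) (by omega) (V ⧸ U) (fun i => quotRep (ρ i) U (hU' i)) (by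
        intro i j hij x y
        apply LinearMap.ext
        intro u
        induction u using Submodule.Quotient.induction_on with
        | _ u =>
          have h1 := LinearMap.congr_fun (hcomm i j hij x y) u
          exact congrArg (Submodule.Quotient.mk (p := U)) h1) rfl (by omega)
      refine pr_ext ρ hcomm hG U l hl ?_ ?_ L hL
      · intro L hL v
        have h3 := LinearMap.congr_fun (i2 L hL) (Submodule.Quotient.mk v)
        rw [pr_quot, LinearMap.zero_apply, Submodule.Quotient.mk_eq_zero] at h3
        exact h3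
      · intro L hL v hv
        have h3 := congrArg Subtype.val (LinearMap.congr_fun (i1 L hL) ⟨v, hv⟩)
        rw [pr_res] at h3
        exact h3

/-- **Degree bound**: commuting subgroups of a group, arbitrary field. -/
theorem prod_zero {F : Type u} [Field F] (K : Type u) [Field K] [Algebra F K] [IsAlgClosed K]
    {Γ : Type w} [Group Γ] {V : Type v} [AddCommGroup V] [Module F V] [FiniteDimensional F V]
    (ρ : Γ →* Module.End F V) {G : Type w} [Group G] {r d : ℕ}
    (hd : MinDim.{u, max v u, w} K G d) (hG : ∀ x : G, x ∈ commutator G)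
    (f : Fin r → G →* Γ) (hf : ∀ i j, i ≠ j → ∀ x y, f i x * f j y = f j y * f i x)
    (hdim : finrank F V < d ^ r) (x : Fin r → G) :
    (List.ofFn fun i => ρ (f i (x i)) - 1).prod = 0 := by
  let σ : Fin r → G →* Module.End K (TensorProduct F K V) := fun i => (bc K ρ).comp (f i)
  have h1 := pr_zero hd hG (List.finRange r) (List.nodup_finRange r) (List.mem_finRange)
    (finrank K (TensorProduct F K V)) (TensorProduct F K V) σ (by
      intro i j hij x y
      change bc K ρ (f i x) * bc K ρ (f j y) = bc K ρ (f j y) * bc K ρ (f i x)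
      rw [← map_mul, ← map_mul, hf i j hij]) rfl
    (by rw [Module.finrank_baseChange, List.length_finRange]; exact hdim)
    ((List.finRange r).map fun i => (i, x i)) (by
      rw [List.map_map]
      exact List.map_id _)
  have h2 : ∀ (l : List (Fin r)) (v : V),
      pr σ (l.map fun i => (i, x i)) ((1 : K) ⊗ₜ[F] v) =
        (1 : K) ⊗ₜ[F] ((l.map fun i => ρ (f i (x i)) - 1).prod v) := by
    intro l v
    induction l with
    | nil => rfl
    | cons i l ih =>
      rw [List.map_cons, List.map_cons, pr_cons, List.prod_cons, Module.End.mul_apply,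
        Module.End.mul_apply, ih, LinearMap.sub_apply, LinearMap.sub_apply, Module.End.one_apply,
        Module.End.one_apply, TensorProduct.tmul_sub]
      rfl
  rw [List.ofFn_eq_map]
  ext v
  have h3 := h2 (List.finRange r) v
  rw [h1, LinearMap.zero_apply] at h3
  apply Module.FaithfullyFlat.tensorProduct_mk_injective (A := F) (B := K) V
  change (1 : K) ⊗ₜ[F] _ = (1 : K) ⊗ₜ[F] _
  rw [← h3, LinearMap.zero_apply, TensorProduct.tmul_zero]

end Pool.Agent.H.MP_59b15d_al.H52E
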