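/-
Degree bound for the mapping class group: on a space of dimension less than `6 ^ r` the product of
the operators `A_k - 1`, `k < r`, vanishes if there are at least `3 r` handles.
-/
import Pool.Agent.H.MP_59b15d_al.h52e.Deg
import Pool.Agent.H.MP_59b15d_al.lin.Main

set_option autoImplicit false

namespace Pool.Agent.H.MP_59b15d_al.H52E

universe u v w

open Module Pool.Agent.H.MP_59b15d_al.Lin
open Pool.MP_59b15d_al.H24T Pool.MP_59b15d_al.H76R Pool.MP_59b15d_al.H73E
open Pool.MP_59b15d_al.H60G Pool.MP_59b15d_al.H40L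

section conj

variable {F : Type u} [Field F] {Γ : Type w} [Group Γ]
variable {V : Type v} [AddCommGroup V] [Module F V]

/-- Conjugation of a product of operators `ρ x - 1`. -/
lemma prod_conj (ρ : Γ →* Module.End F V) (c : Γ) (l : List Γ) :
    (l.map fun x => ρ (c * x * c⁻¹) - 1).prod =
      ρ c * (l.map fun x => ρ x - 1).prod * ρ c⁻¹ := by
  have e : ρ c * ρ c⁻¹ = 1 := by rw [← map_mul, mul_inv_cancel, map_one]
  have e' : ρ c⁻¹ * ρ c = 1 := by rw [← map_mul, inv_mul_cancel, map_one]
  induction l with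
  | nil => simp [e]
  | cons x l ih =>
    rw [List.map_cons, List.prod_cons, ih, List.map_cons, List.prod_cons, map_mul, map_mul]
    calc (ρ c * ρ x * ρ c⁻¹ - 1) * (ρ c * (List.map (fun x => ρ x - 1) l).prod * ρ c⁻¹)
        = ρ c * ρ x * (ρ c⁻¹ * ρ c) * (List.map (fun x => ρ x - 1) l).prod * ρ c⁻¹
          - ρ c * (List.map (fun x => ρ x - 1) l).prod * ρ c⁻¹ := by noncomm_ring
      _ = ρ c * ((ρ x - 1) * (List.map (fun x => ρ x - 1) l).prod) * ρ c⁻¹ := by
          rw [e']; noncomm_ring

end conj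

section rot

variable {m : ℕ} {G : Type w} [Group G] {a b : Fin m → G} (h : IsSurf a b)

/-- The exchange of a block of `p` handles and a block of `q` handles, on the elements `A`. -/
theorem exists_rotA (p q : ℕ) (hpq : p + q ≤ m) :
    ∃ β ∈ Pool.MP_59b15d_al.H60G.MR h 0 (p + q),
      (∀ k, k < p → β * TrA h k * β⁻¹ = TrA h (k + q)) ∧
      (∀ k, k < q → β * TrA h (p + k) * β⁻¹ = TrA h k) ∧
      (∀ k, p + q ≤ k → β * TrA h k * β⁻¹ = TrA h k) := by
  obtain ⟨β, b1, b2, b3⟩ := exists_beta h p q hpq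
  obtain ⟨π, hπ1, hπ2, hπ3⟩ : ∃ π : ℕ → ℕ, (∀ k, k < p → π k = q + k) ∧
      (∀ k, p ≤ k → k < p + q → π k = k - p) ∧ ∀ k, p + q ≤ k → π k = k := by
    refine ⟨fun k => if k < p then q + k else if k < p + q then k - p else k, ?_, ?_, ?_⟩
    · intro k h1
      exact if_pos h1
    · intro k h1 h2
      change (if k < p then q + k else if k < p + q then k - p else k) = k - p
      rw [if_neg (by omega), if_pos h2]
    · intro k h1
      change (if k < p then q + k else if k < p + q then k - p else k) = k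
      rw [if_neg (by omega), if_neg (by omega)]
  obtain ⟨g, hg1, hg2⟩ : ∃ g : ℕ → G, (∀ k, k < p → g k = DD a b q) ∧
      ∀ k, p ≤ k → g k = 1 := by
    refine ⟨fun k => if k < p then DD a b q else 1, ?_, ?_⟩
    · intro k h1
      exact if_pos h1
    · intro k h1
      exact if_neg (by omega)
  have hs : Shuf a b β π g := by
    constructor
    · intro k l _ _ hkl
      rcases lt_or_ge k p with hk | hk
      · rw [hπ1 k hk] at hkl
        rcases lt_or_ge l p with hl | hl
        · rw [hπ1 l hl] at hkl; omega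
        · rcases lt_or_ge l (p + q) with hl' | hl'
          · rw [hπ2 l hl hl'] at hkl; omega
          · rw [hπ3 l hl'] at hkl; omega
      · rcases lt_or_ge k (p + q) with hk' | hk'
        · rw [hπ2 k hk hk'] at hkl
          rcases lt_or_ge l p with hl | hl
          · rw [hπ1 l hl] at hkl; omega
          · rcases lt_or_ge l (p + q) with hl' | hl'
            · rw [hπ2 l hl hl'] at hkl; omega
            · rw [hπ3 l hl'] at hkl; omega
        · rw [hπ3 k hk'] at hkl
          rcases lt_or_ge l p with hl | hl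
          · rw [hπ1 l hl] at hkl; omega
          · rcases lt_or_ge l (p + q) with hl' | hl'
            · rw [hπ2 l hl hl'] at hkl; omega
            · rw [hπ3 l hl'] at hkl; omega
    · intro k _
      rcases lt_or_ge k p with hk | hk
      · rw [hπ1 k hk, hg1 k hk]
        exact b2 k hk
      · rw [hg2 k hk]
        simp only [one_mul, inv_one, mul_one]
        rcases lt_or_ge k (p + q) with hk' | hk'
        · rw [hπ2 k hk hk']
          have h3 := b3 (k - p) (by omega)
          rwa [show p + (k - p) = k by omega] at h3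
        · rw [hπ3 k hk']
          exact MR_fix h b1 k (Or.inr (by omega))
  have hg : ∀ i : Fin m, ((i : ℕ) < q ∨ q ≤ i) → ∀ k, k < m → TA h i (g k) = g k := by
    intro i hq k _
    rcases lt_or_ge k p with hk | hk
    · rw [hg1 k hk]
      exact MR_DD h (TA_mem h i le_rfl (Nat.lt_succ_self _)) (by omega)
    · rw [hg2 k hk]
      exact map_one _
  have key : ∀ k k', k < m → k' = π k → β * TrA h k * β⁻¹ = TrA h k' := by
    intro k k' hk hk'
    have hk'm : k' < m := by
      rcases lt_or_ge k p with h1 | h1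
      · rw [hk', hπ1 k h1]; omega
      · rcases lt_or_ge k (p + q) with h2 | h2
        · rw [hk', hπ2 k h1 h2]; omega
        · rw [hk', hπ3 k h2]; omega
    have h1 := hs.conj_TA h ⟨k, hk⟩ ⟨k', hk'm⟩ hk' (hg _ (by omega))
    rw [TrA_lt h hk, TrA_lt h hk'm, ← h1]
    group
  refine ⟨β, b1, ?_, ?_, ?_⟩
  · intro k hk
    exact key k (k + q) (by omega) (by rw [hπ1 k hk]; omega)
  · intro k hk
    exact key (p + k) k (by omega) (by rw [hπ2 _ (by omega) (by omega)]; omega)
  · intro k hk
    rcases lt_or_ge k m with hkm | hkm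
    · exact key k k hkm (hπ3 k hk).symm
    · have e : TrA h k = 1 := by rw [TrA, dif_neg (by omega)]
      rw [e]
      group

/-- The elements `A_0, A_3, …, A_(3 r - 3)` are simultaneously conjugate to
`A_0, A_1, …, A_(r - 1)`. -/
theorem exists_spread (r : ℕ) (hr : 3 * r ≤ m) :
    ∃ c ∈ Pool.MP_59b15d_al.H60G.MR h 0 m,
      (∀ k, k < r → c * TrA h (3 * k) * c⁻¹ = TrA h k) := by
  have key : ∀ s, s ≤ r → ∃ c ∈ Pool.MP_59b15d_al.H60G.MR h 0 m,
      (∀ k, k < s → c * TrA h (3 * k) * c⁻¹ = TrA h k) ∧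
      ∀ k, s ≤ k → k < r → c * TrA h (3 * k) * c⁻¹ = TrA h (3 * k) := by
    intro s
    induction s with
    | zero =>
      intro _
      exact ⟨1, Subgroup.one_mem _, fun k hk => absurd hk (Nat.not_lt_zero _),
        fun k _ _ => by group⟩
    | succ s ih =>
      intro hs
      obtain ⟨c, hc, c1, c2⟩ := ih (by omega)
      obtain ⟨β, b0, b1, b2, b3⟩ := exists_rotA h (3 * s) 1 (by omega)
      obtain ⟨γ, g0, g1, g2, g3⟩ := exists_rotA h 1 s (by omega)
      refine ⟨γ * β * c, Subgroup.mul_mem _ (Subgroup.mul_mem _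
        (MR_mono h le_rfl (by omega) g0) (MR_mono h le_rfl (by omega) b0)) hc, ?_, ?_⟩
      · intro k hk
        have e : γ * β * c * TrA h (3 * k) * (γ * β * c)⁻¹ =
            γ * (β * (c * TrA h (3 * k) * c⁻¹) * β⁻¹) * γ⁻¹ := by group
        rw [e]
        rcases lt_or_ge k s with h1 | h1
        · rw [c1 k h1, b1 k (by omega), add_comm k 1, g2 k h1]
        · have e1 : k = s := by omega
          subst e1
          rw [c2 k le_rfl (by omega)]
          have e2 := b2 0 (by omega)
          rw [add_zero] at e2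
          rw [e2, g1 0 (by omega), zero_add]
      · intro k hk hkr
        have e : γ * β * c * TrA h (3 * k) * (γ * β * c)⁻¹ =
            γ * (β * (c * TrA h (3 * k) * c⁻¹) * β⁻¹) * γ⁻¹ := by group
        rw [e, c2 k (by omega) hkr, b3 _ (by omega), g3 _ (by omega)]
  obtain ⟨c, hc, c1, -⟩ := key r le_rfl
  exact ⟨c, hc, c1⟩

end rot

section main

variable {m : ℕ} {G : Type w} [Group G] {a b : Fin m → G} (h : IsSurf a b)

/-- **Degree bound.** On a space of dimension less than `6 ^ r` the product of operators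
`x_k - 1`, `x_k` in the twist group of the handles `3 k, 3 k + 1, 3 k + 2`, vanishes. -/
theorem deg_block {F : Type u} [Field F] {r : ℕ} (hrm : 3 * r ≤ m)
    {V : Type v} [AddCommGroup V] [Module F V] [FiniteDimensional F V]
    (ρ : MCG a b →* Module.End F V) (hdim : finrank F V < 6 ^ r) (x : ℕ → MCG a b)
    (hx : ∀ k, k < r → (x k : MulAut G) ∈ Pool.MP_59b15d_al.H60G.MR h (3 * k) (3 * k + 3)) :
    ((List.range r).map fun k => ρ (x k) - 1).prod = 0 := by
  rcases Nat.eq_zero_or_pos r with hr0 | hr0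
  · subst hr0
    rw [pow_zero, Nat.lt_one_iff] at hdim
    have : Subsingleton V := finrank_zero_iff.1 hdim
    ext v
    exact Subsingleton.elim _ _
  · have hone : ∀ k : Fin r, ∃ c ∈ Pool.MP_59b15d_al.H60G.MR h 0 m,
        ∀ x, x ∈ Pool.MP_59b15d_al.H60G.MR h 0 3 ↔
          c * x * c⁻¹ ∈ Pool.MP_59b15d_al.H60G.MR h (3 * (k : ℕ)) (3 * k + 3) := by
      intro k
      by_cases hk : (k : ℕ) = 0
      · refine ⟨1, Subgroup.one_mem _, fun x => ?_⟩
        rw [hk]
        simp
      · obtain ⟨c, hc, h1, -⟩ := exists_blk_iff h r hrm k 0 k.2 hr0 hk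
        exact ⟨c, hc, h1⟩
    choose c hc1 hc2 using hone
    let c' : Fin r → MCG a b := fun k => ⟨c k, MR_le_MCG h 0 m (hc1 k)⟩
    let f : Fin r → Pool.MP_59b15d_al.H60G.MR h 0 3 →* MCG a b := fun k =>
      (MulAut.conj (c' k)).toMonoidHom.comp (Subgroup.inclusion (MR_le_MCG h 0 3))
    have hfval : ∀ (k : Fin r) (y : Pool.MP_59b15d_al.H60G.MR h 0 3),
        ((f k y : MCG a b) : MulAut G) = c k * y * (c k)⁻¹ := fun k y => rfl
    have hfmem : ∀ (k : Fin r) (y : Pool.MP_59b15d_al.H60G.MR h 0 3),
        ((f k y : MCG a b) : MulAut G) ∈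
          Pool.MP_59b15d_al.H60G.MR h (3 * (k : ℕ)) (3 * k + 3) := by
      intro k y
      rw [hfval]
      exact (hc2 k y).1 y.2
    have hex : ∀ k : Fin r, ∃ y : Pool.MP_59b15d_al.H60G.MR h 0 3, f k y = x k := by
      intro k
      refine ⟨⟨(c k)⁻¹ * (x k : MulAut G) * c k, ?_⟩, ?_⟩
      · rw [hc2 k]
        convert hx k k.2 using 1
        group
      · apply Subtype.ext
        rw [hfval]
        group
    choose y hy using hex
    have hm3 : 3 ≤ m := by omega
    have h1 := prod_zero (AlgebraicClosure F) ρ (minDim_MR h hm3 (AlgebraicClosure F))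
      (MR3_perfect h (lo := 0) (by omega)) f (by
        intro i j hij z t
        apply Subtype.ext
        exact block_comm h (r := r) i j i.2 j.2 (fun h => hij (Fin.ext h)) _ (hfmem i z) _
          (hfmem j t)) hdim y
    rw [List.ofFn_eq_map] at h1
    rw [← h1, ← List.map_coe_finRange_eq_range, List.map_map]
    congr 1
    refine List.map_congr_left fun k _ => ?_
    rw [Function.comp_apply, hy k]

/-- **Degree bound**, for the elements `A_0, …, A_(r - 1)`. -/
theorem deg_A {F : Type u} [Field F] {r : ℕ} (hrm : 3 * r ≤ m)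
    {V : Type v} [AddCommGroup V] [Module F V] [FiniteDimensional F V]
    (ρ : MCG a b →* Module.End F V) (hdim : finrank F V < 6 ^ r) :
    ((List.range r).map fun k => ρ (uA h k) - 1).prod = 0 := by
  obtain ⟨c, hc, hc1⟩ := exists_spread h r hrm
  have h1 := deg_block h hrm ρ hdim (fun k => uA h (3 * k)) (by
    intro k _
    exact TrA_mem h (by omega) (by omega))
  have h2 := prod_conj ρ (⟨c, MR_le_MCG h 0 m hc⟩ : MCG a b)
    ((List.range r).map fun k => uA h (3 * k))
  rw [List.map_map, List.map_map] at h2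
  have h3 : ((List.range r).map ((fun x => ρ x - 1) ∘ fun k => uA h (3 * k))).prod = 0 := h1
  rw [h3, mul_zero, zero_mul] at h2
  rw [← h2]
  congr 1
  refine List.map_congr_left fun k hk => ?_
  rw [Function.comp_apply]
  congr 2
  apply Subtype.ext
  exact (hc1 k (List.mem_range.1 hk)).symm

end main

end Pool.Agent.H.MP_59b15d_al.H52E
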