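/-
Assembly: from the irreducible representations of dimension at most `D` to all representations of
dimension at most `D`.
-/
import Pool.Agent.H.MP_59b15d_al.h78e.Chp
import Pool.Agent.H.MP_59b15d_al.h78e.Tw
import Pool.Agent.H.MP_59b15d_al.lin.Cong

set_option autoImplicit false

namespace Pool.Agent.H.MP_59b15d_al.H52E

universe u v w

open Module Pool.Agent.H.MP_59b15d_al.Lin
open Pool.MP_59b15d_al.H24T Pool.MP_59b15d_al.H76R Pool.MP_59b15d_al.H73E
open Pool.MP_59b15d_al.H60G Pool.MP_59b15d_al.H40L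
open Pool.Agent.H.MP_59b15d_al.SP (cls Dv cls_mul cls_one cls_inv H1 csp_H1)
open Pool.MP_59b15d_al.H76 (StdGen InnMod)

variable {m : ℕ} {G : Type w} [Group G] {a b : Fin m → G} (h : IsSurf a b)

/-- The Torelli group. -/
def Tor : Subgroup (MCG a b) where
  carrier := {φ | ∀ x, cls h ((φ : MulAut G) x) = cls h x}
  mul_mem' := by
    intro φ ψ hφ hψ x
    change cls h ((φ : MulAut G) ((ψ : MulAut G) x)) = _
    rw [hφ, hψ]
  one_mem' := fun x => rfl
  inv_mem' := by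
    intro φ hφ x
    have h1 := hφ ((φ : MulAut G)⁻¹ x)
    rw [MulAut.apply_inv_self] at h1
    exact h1.symm

lemma mem_Tor {φ : MCG a b} : φ ∈ Tor h ↔ ∀ x, cls h ((φ : MulAut G) x) = cls h x := Iff.rfl

instance Tor_normal : (Tor h).Normal := by
  constructor
  intro φ hφ ψ x
  have e1 : ∀ y z : G, cls h y = cls h z → cls h ((ψ : MulAut G) y) = cls h ((ψ : MulAut G) z) := by
    intro y z hyz
    have h1 := congrArg (H1 h (ψ : MulAut G)) hyz
    rwa [SP.H1_cls, SP.H1_cls] at h1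
  change cls h ((ψ : MulAut G) ((φ : MulAut G) ((ψ : MulAut G)⁻¹ x))) = cls h x
  rw [e1 _ _ (hφ ((ψ : MulAut G)⁻¹ x)), MulAut.apply_inv_self]

/-- The irreducible representations of dimension at most `D` kill the Torelli group and the twists
are unipotent in them. -/
def Good (F : Type u) [Field F] (D : ℕ) : Prop :=
  ∀ (V : Type v) [AddCommGroup V] [Module F V] [FiniteDimensional F V]
    (ρ : MCG a b →* Module.End F V), finrank F V ≤ D → Irr ρ →
      (∀ φ : MCG a b, (∀ x, cls h ((φ : MulAut G) x) = cls h x) → ρ φ = 1) ∧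
      ∃ r : ℕ, (ρ (uA h 0) - 1) ^ r = 0

variable {F : Type u} [Field F] {D : ℕ}

theorem good_cr (hG : Good.{u, v, w} h F D) (V : Type v) [AddCommGroup V] [Module F V]
    [FiniteDimensional F V] (ρ : MCG a b →* Module.End F V) (hD : finrank F V ≤ D)
    (hρ : CompRed ρ) {φ : MCG a b} (hφ : ∀ x, cls h ((φ : MulAut G) x) = cls h x) : ρ φ = 1 :=
  kill_of_irr (T := Tor h) (fun V _ _ _ ρ hD hirr => (hG V ρ hD hirr).1) V ρ hD hρ φ hφ

theorem good_unip (hG : Good.{u, v, w} h F D) (V : Type v) [AddCommGroup V] [Module F V]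
    [FiniteDimensional F V] (ρ : MCG a b →* Module.End F V) (hD : finrank F V ≤ D)
    (l : List (MCG a b)) (hl : ∀ φ ∈ l, ∀ x, cls h ((φ : MulAut G) x) = cls h x)
    (hlen : finrank F V ≤ l.length) : (l.map (fun φ => ρ φ - 1)).prod = 0 :=
  unip_of_irr (T := Tor h) (fun V _ _ _ ρ hD hirr => (hG V ρ hD hirr).1) V ρ hD l hl hlen

theorem good_cong (hm : 3 ≤ m) (hG : Good.{u, v, w} h F D) (V : Type v) [AddCommGroup V]
    [Module F V] [FiniteDimensional F V] (ρ : MCG a b →* Module.End F V) (hD : finrank F V ≤ D)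
    (hρ : CompRed ρ) (H : Subgroup (MulAut G)) (hH : H.relIndex (MCG a b) ≠ 0)
    (hker : ∀ f : MCG a b, ρ f = 1 → (f : MulAut G) ∈ H) :
    ∃ Γ : Subgroup G, Γ.Characteristic ∧ Γ.FiniteIndex ∧ ∀ φ ∈ MCG a b, InnMod Γ φ → φ ∈ H := by
  have h1 : ∀ f ∈ MCG a b, H1 h f = 1 → f ∈ H := by
    intro f hf hf1
    refine hker ⟨f, hf⟩ (good_cr h hG V ρ hD hρ ?_)
    intro x
    have h2 := congrArg (fun A => A (cls h x)) hf1
    simpa [SP.H1_cls] using h2
  obtain ⟨n, hn, h2⟩ := csp_H1 h hm H hH h1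
  obtain ⟨k, rfl⟩ : ∃ k : ℕ, n = k := ⟨n.toNat, (Int.toNat_of_nonneg hn.le).symm⟩
  obtain ⟨Γ, hc, hf, hle⟩ := exists_char_lev h (n := k) (by omega)
  exact ⟨Γ, hc, hf, fun φ hφ hi => h2 φ hφ (dv_of_innMod h hle hi)⟩

theorem good_mod (hm : 3 ≤ m) (hG : Good.{u, v, w} h F D) (V : Type v) [AddCommGroup V]
    [Module F V] [FiniteDimensional F V] (ρ : MCG a b →* Module.End F V) (hD : finrank F V ≤ D)
    (hρ : CompRed ρ) {n : ℤ} (hn : (n : F) = 0) {φ : MCG a b}
    (hφ : ∀ x, Dv n (cls h ((φ : MulAut G) x) - cls h x)) : ρ φ = 1 :=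
  H78E.cr_mod h hm (fun V _ _ _ ρ hD hirr => (hG V ρ hD hirr).1)
    (fun V _ _ _ ρ hD hirr => (hG V ρ hD hirr).2) hn V ρ hD hρ hφ

/-- The statement of the core: an irreducible representation in which the product of `k + 1` of
the operators `A - 1` vanishes, with `2 k + 4` at most the genus, kills the Torelli group. -/
def Core (F : Type u) [Field F] : Prop :=
  ∀ (V : Type v) [AddCommGroup V] [Module F V] [FiniteDimensional F V]
    (ρ : MCG a b →* Module.End F V), Irr ρ → ∀ k : ℕ, 2 * k + 4 ≤ m →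
      ((List.range (k + 1)).map fun i => ρ (uA h i) - 1).prod = 0 →
      ∀ φ : MCG a b, (∀ x, cls h ((φ : MulAut G) x) = cls h x) → ρ φ = 1

/-- The core and a bound for the degree. -/
theorem good_of_core (hcore : Core.{u, v, w} h F) (hm : 4 ≤ m)
    (hdeg : ∀ (V : Type v) [AddCommGroup V] [Module F V] [FiniteDimensional F V]
      (ρ : MCG a b →* Module.End F V), finrank F V ≤ D → Irr ρ →
        ∃ k : ℕ, 2 * k + 4 ≤ m ∧ ((List.range (k + 1)).map fun i => ρ (uA h i) - 1).prod = 0) :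
    Good.{u, v, w} h F D := by
  intro V _ _ _ ρ hD hirr
  obtain ⟨k, hk, h1⟩ := hdeg V ρ hD hirr
  exact ⟨hcore V ρ hirr k hk h1, k + 1,
    H78E.twist_unip_of h (Nat.succ_pos k) (by omega) ρ h1⟩

/-- The bound `6 ^ r`. -/
theorem good_six (hcore : Core.{u, v, w} h F) {r : ℕ} (hr : 2 ≤ r) (hrm : 3 * r ≤ m)
    (hD : D < 6 ^ r) : Good.{u, v, w} h F D := by
  refine good_of_core h hcore (by omega) fun V _ _ _ ρ hV _ => ?_
  obtain ⟨k, rfl⟩ : ∃ k, r = k + 1 := ⟨r - 1, by omega⟩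
  exact ⟨k, by omega, deg_A h hrm ρ (lt_of_le_of_lt hV hD)⟩

end Pool.Agent.H.MP_59b15d_al.H52E
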