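/-
The bound `2 ^ (m - 1)` from the core, the mixed degree bound and the independence bound.
-/
import Pool.Agent.H.MP_59b15d_al.h52e.Fin

set_option autoImplicit false

namespace Pool.Agent.H.MP_59b15d_al.H52E

universe u v w

open Module Pool.Agent.H.MP_59b15d_al.Lin
open Pool.MP_59b15d_al.H24T Pool.MP_59b15d_al.H76R Pool.MP_59b15d_al.H73E
open Pool.MP_59b15d_al.H60G Pool.MP_59b15d_al.H40L

variable {m : ℕ} {G : Type w} [Group G] {a b : Fin m → G} (h : IsSurf a b)

/-- Blocks of two and of three handles. -/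
def Mixed (F : Type u) [Field F] : Prop :=
  ∀ (V : Type v) [AddCommGroup V] [Module F V] [FiniteDimensional F V]
    (ρ : MCG a b →* Module.End F V) (t s : ℕ), 1 ≤ s → 2 * t + 3 * s ≤ m →
      finrank F V < 4 ^ t * 6 ^ s → ((List.range (t + s)).map fun i => ρ (uA h i) - 1).prod = 0

/-- Independence. -/
def Indep (F : Type u) [Field F] : Prop :=
  ∀ (V : Type v) [AddCommGroup V] [Module F V] [FiniteDimensional F V]
    (ρ : MCG a b →* Module.End F V), Irr ρ → ∀ k : ℕ, k + 4 ≤ m →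
      ((List.range (k + 1)).map fun i => ρ (uA h i) - 1).prod = 0 →
      ((List.range k).map fun i => ρ (uA h i) - 1).prod ≠ 0 → 2 ^ k * m.choose k ≤ finrank F V

variable {F : Type u} [Field F] {D : ℕ}

lemma choose_ge (u : ℕ) : 2 ^ (u + 4) ≤ (2 * (u + 3) + 1).choose (u + 2) := by
  induction u with
  | zero => decide
  | succ u ih =>
    have h1 : (2 * (u + 1 + 3) + 1).choose (u + 1 + 2) =
        (2 * u + 8).choose (u + 2) + (2 * u + 8).choose (u + 3) := Nat.choose_succ_succ _ _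
    have h2 : (2 * u + 8).choose (u + 3) = (2 * u + 7).choose (u + 2) + (2 * u + 7).choose (u + 3) :=
      Nat.choose_succ_succ _ _
    have h3 : (2 * u + 7).choose (u + 2) ≤ (2 * u + 7).choose (u + 3) :=
      Nat.choose_le_succ_of_lt_half_left (by omega)
    have h4 : (2 * (u + 3) + 1).choose (u + 2) = (2 * u + 7).choose (u + 2) := by
      congr 1
    rw [h4] at ih
    have h5 : 2 ^ (u + 1 + 4) = 2 * 2 ^ (u + 4) := by
      rw [show u + 1 + 4 = (u + 4) + 1 by omega, pow_succ, mul_comm]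
    omega

lemma pow_even {u : ℕ} (hu : 3 ≤ u) : 2 ^ (2 * u - 1) < 4 ^ (u - 3) * 6 ^ 2 := by
  obtain ⟨v, rfl⟩ : ∃ v, u = v + 3 := ⟨u - 3, by omega⟩
  have h1 : 2 ^ (2 * (v + 3) - 1) = 4 ^ v * 2 ^ 5 := by
    rw [show 2 * (v + 3) - 1 = 2 * v + 5 by omega, pow_add, pow_mul]
    norm_num
  rw [h1, Nat.add_sub_cancel]
  exact Nat.mul_lt_mul_of_pos_left (by norm_num) (by positivity)

lemma pow_odd {u : ℕ} (hu : 1 ≤ u) : 2 ^ (2 * u) < 4 ^ (u - 1) * 6 ^ 1 := by
  obtain ⟨v, rfl⟩ : ∃ v, u = v + 1 := ⟨u - 1, by omega⟩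
  have h1 : 2 ^ (2 * (v + 1)) = 4 ^ v * 2 ^ 2 := by
    rw [show 2 * (v + 1) = 2 * v + 2 by omega, pow_add, pow_mul]
    norm_num
  rw [h1, Nat.add_sub_cancel]
  exact Nat.mul_lt_mul_of_pos_left (by norm_num) (by positivity)

/-- **The bound `2 ^ (m - 1)`.** -/
theorem good_two (hcore : Core.{u, v, w} h F) (hmix : Mixed.{u, v, w} h F)
    (hind : Indep.{u, v, w} h F) (hm : 6 ≤ m) (hD : D < 2 ^ (m - 1)) :
    Good.{u, v, w} h F D := by
  refine good_of_core h hcore (by omega) fun V _ _ _ ρ hV hirr => ?_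
  rcases Nat.even_or_odd' m with ⟨u, hu | hu⟩
  · refine ⟨u - 2, by omega, ?_⟩
    have h1 := hmix V ρ (u - 3) 2 (by omega) (by omega)
      ((lt_of_le_of_lt hV hD).trans (by rw [hu]; exact pow_even (by omega)))
    rwa [show u - 3 + 2 = u - 2 + 1 by omega] at h1
  · by_cases h2 : ((List.range (u - 1)).map fun i => ρ (uA h i) - 1).prod = 0
    · refine ⟨u - 2, by omega, ?_⟩
      rwa [show u - 2 + 1 = u - 1 by omega]
    · exfalso
      have h1 := hmix V ρ (u - 1) 1 le_rfl (by omega)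
        ((lt_of_le_of_lt hV hD).trans (by
          rw [show m - 1 = 2 * u by omega]; exact pow_odd (by omega)))
      have h3 := hind V ρ hirr (u - 1) (by omega) h1 h2
      obtain ⟨v, rfl⟩ : ∃ v, u = v + 3 := ⟨u - 3, by omega⟩
      have h4 := choose_ge v
      have h5 : 2 ^ (m - 1) ≤ 2 ^ (v + 3 - 1) * m.choose (v + 3 - 1) := by
        rw [hu, show v + 3 - 1 = v + 2 by omega, show 2 * (v + 3) + 1 - 1 = (v + 2) + (v + 4) by omega,
          pow_add]
        exact Nat.mul_le_mul_left _ h4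
      omega

end Pool.Agent.H.MP_59b15d_al.H52E
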