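/-
The core for the mapping class group, from the relations of the generators.
-/
import Pool.Agent.H.MP_59b15d_al.h11d.Indep3
import Pool.Agent.H.MP_59b15d_al.h40d.Evu
import Pool.Agent.H.MP_59b15d_al.h52e.Front
import Pool.Agent.H.MP_59b15d_al.h73y.StarMcg
import Pool.Agent.H.MP_59b15d_al.h95e.St4

set_option autoImplicit false

namespace Pool.Agent.H.MP_59b15d_al.H52E

universe u v w

open Module Pool.Agent.H.MP_59b15d_al.Lin
open Pool.MP_59b15d_al.H24T Pool.MP_59b15d_al.H76R Pool.MP_59b15d_al.H73E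
open Pool.MP_59b15d_al.H95E Pool.MP_59b15d_al.H93E Pool.MP_59b15d_al.H60E
open Pool.MP_59b15d_al.H60G Pool.MP_59b15d_al.H40L
open Pool.Agent.H.MP_59b15d_al.SP (cls)
open Pool.MP_59b15d_al.H46U
open Pool.MP_59b15d_al.H11D (du du_irr np np_append du_np_eq_zero_iff)

section gen

variable {m : ℕ} {G : Type w} [Group G] {a b : Fin m → G} (h : IsSurf a b)

/-- The elements of the tree generate the mapping class group. -/
theorem gen_u (hm : 0 < m) (K : Subgroup (MCG a b)) (hA : ∀ i, i < m → uA h i ∈ K)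
    (hB : ∀ i, i < m → uB h i ∈ K) (hC : ∀ i, i + 1 < m → uC h i ∈ K) : K = ⊤ := by
  have hgen' : Subgroup.closure (Set.range (tt (g := m) (uA h) (uB h) (uC h))) = ⊤ := by
    apply closure_eq_top_of_val
    refine Eq.trans ?_ ((gen_tt h).trans (MCG_eq_MR h hm).symm)
    congr 2
    ext s : 1
    exact tt_u_val h s
  rw [eq_top_iff, ← hgen', Subgroup.closure_le]
  rintro _ ⟨i | i | i, rfl⟩
  · exact hA i i.2
  · exact hB i i.2
  · exact hC i (by omega)

end gen

section np

variable {F V Γ : Type*} [Field F] [AddCommGroup V] [Module F V] [Group Γ]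

lemma np_range (ρ : Γ →* Module.End F V) (A : ℕ → Γ) (k : ℕ) :
    ((List.range k).map fun i => ρ (A i) - 1).prod = np ρ ((List.range k).map A) := by
  rw [np, List.map_map]
  rfl

lemma np_range_le {ρ : Γ →* Module.End F V} {A : ℕ → Γ} {k l : ℕ} (hkl : k ≤ l)
    (h0 : np ρ ((List.range k).map A) = 0) : np ρ ((List.range l).map A) = 0 := by
  obtain ⟨d, rfl⟩ := Nat.exists_eq_add_of_le hkl
  rw [List.range_add, List.map_append]
  ext v
  rw [np_append, h0]
  rfl

end np

section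

variable {m : ℕ} {G : Type w} [Group G] {a b : Fin m → G} (h : IsSurf a b)
variable (L0 : Lk m (TrA h) (TrB h) (TrC h) (TrS h)) {XA XB : ℕ → MCG a b}
  (P0 : ∀ n, m = n + 1 → Pu n (uA h) (uB h) (uC h) (uS h) XA XB)
variable {F : Type u} [Field F]

include L0 P0

/-- Exact families vanish. -/
theorem ev_u {V : Type v} [AddCommGroup V] [Module F V] {ρ : MCG a b →* Module.End F V}
    (hirr : Irr ρ) {k : ℕ} (hk : k ≤ m) (hne : np ρ ((List.range k).map (uA h)) ≠ 0) :
    ∀ m' < k, ∀ W, Ex ρ (uA h) (uB h) (uC h) (uS h) m m' W → W = ⊥ := by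
  intro m' hm' W E
  obtain ⟨n, rfl⟩ : ∃ n, m = n + 1 := ⟨m - 1, by omega⟩
  refine EV (ulk h L0) (uhb h L0) (P0 n rfl) (fun K hA hB hC => gen_u h (by omega) K hA hB hC)
    hirr m' (List.range (m' + 1)) List.nodup_range (fun i hi => ?_) List.length_range
    (fun h0 => hne (np_range_le (by omega) h0)) W E
  rw [List.mem_range] at hi
  omega

/-- The bounding pairs. -/
theorem rho_eq_uT {V : Type v} [AddCommGroup V] [Module F V] [FiniteDimensional F V]
    {ρ : MCG a b →* Module.End F V} (hirr : Irr ρ) {k : ℕ}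
    (h0 : np ρ ((List.range (k + 1)).map (uA h)) = 0)
    (hne : 0 < k → np ρ ((List.range k).map (uA h)) ≠ 0) (q : Fin m) (hq0 : 0 < (q : ℕ))
    (hq1 : (q : ℕ) + 1 < m) (h1 : k + 1 ≤ q) (h2 : (q : ℕ) + k + 2 ≤ m) :
    ρ (uA h q) = ρ (uT h q) := by
  have hc : ∀ x ∈ (List.range k).map (uA h), ∀ y ∈ (List.range k).map (uA h), Commute x y := by
    intro x hx y hy
    obtain ⟨i, -, rfl⟩ := List.mem_map.1 hx
    obtain ⟨j, -, rfl⟩ := List.mem_map.1 hy
    exact (ulk h L0).AA i j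
  refine rho_eq_T (ulk h L0) (uhb h L0) (uln h) (ubp h q) (fun i hi => uA_out h hi)
    (Pool.MP_59b15d_al.H73Y.star_mcg h hq0 hq1) q.2 (fun _ => h1) (fun _ => h2)
    (np_all_range (ulk h L0) (by omega) fun v => by rw [h0]; rfl)
    (fun m' hm' => ev_u h L0 P0 hirr (by omega) (hne (by omega)) m' hm')
    (fun m' hm' => ev_u h L0 P0 (du_irr hirr) (by omega) ?_ m' hm')
  rw [Ne, du_np_eq_zero_iff ρ hc]
  exact hne (by omega)

/-- **The core.** -/
theorem core_of
    (htor : ∀ (V : Type v) [AddCommGroup V] [Module F V] (ρ : MCG a b →* Module.End F V)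
      (q q' : Fin m), (q' : ℕ) = q + 1 → ρ (uA h q) = ρ (uT h q) → ρ (uA h q') = ρ (uT h q') →
      ∀ φ : MCG a b, (∀ x, cls h ((φ : MulAut G) x) = cls h x) → ρ φ = 1) :
    Core.{u, v, w} h F := by
  classical
  intro V _ _ _ ρ hirr k hk h0
  have hex : ∃ k, np ρ ((List.range (k + 1)).map (uA h)) = 0 := ⟨k, by rw [← np_range]; exact h0⟩
  have h1 : Nat.find hex ≤ k := Nat.find_min' hex (by rw [← np_range]; exact h0)
  have h2 := Nat.find_spec hex
  have h3 : 0 < Nat.find hex → np ρ ((List.range (Nat.find hex)).map (uA h)) ≠ 0 := by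
    intro h4
    have h5 := Nat.find_min hex (m := Nat.find hex - 1) (by omega)
    rwa [Nat.sub_add_cancel h4] at h5
  generalize Nat.find hex = k' at h1 h2 h3
  exact htor V ρ ⟨k' + 1, by omega⟩ ⟨k' + 2, by omega⟩ rfl
    (rho_eq_uT h L0 P0 hirr h2 h3 ⟨k' + 1, by omega⟩ (by simp) (by simp; omega) (by simp)
      (by simp; omega))
    (rho_eq_uT h L0 P0 hirr h2 h3 ⟨k' + 2, by omega⟩ (by simp) (by simp; omega) (by simp)
      (by simp; omega))

/-- **Independence.** -/
theorem indep_of : Indep.{u, v, w} h F := by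
  intro V _ _ _ ρ hirr k hk h0 hne
  rw [np_range] at h0 hne
  exact Pool.MP_59b15d_al.H11D.indep (ulk h L0) (uln h) (fun i hi => uA_out h hi)
    (lemU (ulk h L0) (uhb h L0)) (by omega)
    (fun m' hm' => ev_u h L0 P0 hirr (by omega) hne m' (by omega)) h0 hne

end

end Pool.Agent.H.MP_59b15d_al.H52E
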