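/-
The core and the independence for the mapping class group.
-/
import Pool.Agent.H.MP_59b15d_al.h52e.Inst
import Pool.Agent.H.MP_59b15d_al.h60e.EvM
import Pool.Agent.H.MP_59b15d_al.h62d.Mcg

set_option autoImplicit false

namespace Pool.Agent.H.MP_59b15d_al.H52E

universe u v w

open Module Pool.Agent.H.MP_59b15d_al.Lin
open Pool.MP_59b15d_al.H24T Pool.MP_59b15d_al.H76R Pool.MP_59b15d_al.H73E
open Pool.MP_59b15d_al.H95E Pool.MP_59b15d_al.H93E Pool.MP_59b15d_al.H60E
open Pool.MP_59b15d_al.H60G Pool.MP_59b15d_al.H40L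
open Pool.Agent.H.MP_59b15d_al.SP (cls)
open Pool.MP_59b15d_al.H46U

variable {m : ℕ} {G : Type w} [Group G] {a b : Fin m → G} (h : IsSurf a b)
variable (L0 : Lk m (TrA h) (TrB h) (TrC h) (TrS h)) {F : Type u} [Field F] {D : ℕ}

include L0

/-- **The core.** -/
theorem core_mcg : Core.{u, v, w} h F := by
  rcases m with _ | n
  · intro V _ _ _ ρ hirr k hk
    omega
  · intro V _ _ _ ρ hirr k hk h0
    refine core_of h L0 (XA := Pool.MP_59b15d_al.H40D.gXA h)
      (XB := Pool.MP_59b15d_al.H40D.gXB h) (fun n' hn => ?_)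
      (fun V _ _ ρ q q' hq h1 h2 => H62D.torelli_mcg h (by omega) ρ hq h1 h2) V ρ hirr k hk h0
    obtain rfl : n = n' := by omega
    exact pu_mcg h

/-- **Independence.** -/
theorem indep_mcg : Indep.{u, v, w} h F := by
  rcases m with _ | n
  · intro V _ _ _ ρ hirr k hk
    omega
  · refine indep_of h L0 (XA := Pool.MP_59b15d_al.H40D.gXA h)
      (XB := Pool.MP_59b15d_al.H40D.gXB h) (fun n' hn => ?_)
    obtain rfl : n = n' := by omega
    exact pu_mcg h

/-- The bound `2 ^ (m - 1)`. -/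
theorem good_mcg (hmix : Mixed.{u, v, w} h F) (hm : 6 ≤ m) (hD : D < 2 ^ (m - 1)) :
    Good.{u, v, w} h F D :=
  good_two h (core_mcg h L0) hmix (indep_mcg h L0) hm hD

end Pool.Agent.H.MP_59b15d_al.H52E
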