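/-
The core and the independence for the mapping class group, without hypotheses.
-/
import Pool.Agent.H.MP_59b15d_al.h52e.All
import Pool.Agent.H.MP_59b15d_al.h60e.LkI

set_option autoImplicit false

namespace Pool.Agent.H.MP_59b15d_al.H52E

universe u v w

open Module Pool.Agent.H.MP_59b15d_al.Lin
open Pool.MP_59b15d_al.H24T Pool.MP_59b15d_al.H76R Pool.MP_59b15d_al.H73E
open Pool.MP_59b15d_al.H60G Pool.MP_59b15d_al.H40L Pool.MP_59b15d_al.H93E
open Pool.MP_59b15d_al.H46U

variable {m : ℕ} {G : Type w} [Group G] {a b : Fin m → G} (h : IsSurf a b)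

/-- The relations. -/
theorem lkm : Lk m (TrA h) (TrB h) (TrC h) (TrS h) :=
  Pool.MP_59b15d_al.H60E.LkI.lk_of h (fun _ hk => TrS_lt h hk) (fun _ hk => TrS_ge h hk)

variable {F : Type u} [Field F] {D : ℕ}

/-- **The core.** -/
theorem core_all : Core.{u, v, w} h F := core_mcg h (lkm h)

/-- **Independence.** -/
theorem indep_all : Indep.{u, v, w} h F := indep_mcg h (lkm h)

/-- The bound `2 ^ (m - 1)`. -/
theorem good_two' (hmix : Mixed.{u, v, w} h F) (hm : 6 ≤ m) (hD : D < 2 ^ (m - 1)) :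
    Good.{u, v, w} h F D :=
  good_two h (core_all h) hmix (indep_all h) hm hD

/-- The bound `6 ^ r`. -/
theorem good_six' {r : ℕ} (hr : 2 ≤ r) (hrm : 3 * r ≤ m) (hD : D < 6 ^ r) :
    Good.{u, v, w} h F D :=
  good_six h (core_all h) hr hrm hD

end Pool.Agent.H.MP_59b15d_al.H52E
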