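/-
If the Torelli group acts unipotently, then the representation is not faithful: there is an element
of the kernel which is not an inner automorphism.
-/
import Pool.Agent.H.MP_59b15d_al.h52e.Fin
import Pool.Agent.H.MP_59b15d_al.lin.NotInner
import Pool.Agent.H.MP_59b15d_al.h40th.Gen

set_option autoImplicit false

namespace Pool.Agent.H.MP_59b15d_al.H52E

universe u v w

open Module Pool.Agent.H.MP_59b15d_al.Lin
open Pool.MP_59b15d_al.H24T Pool.MP_59b15d_al.H76R Pool.MP_59b15d_al.H73E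
open Pool.MP_59b15d_al.H60G Pool.MP_59b15d_al.H40L
open Pool.Agent.H.MP_59b15d_al.SP (cls H1 om om_f f_ne)
open Pool.Agent.H.MP_59b15d_al.H40T (XX_triv hs_comm)
open FreeGroup (of)

/-! ### Filtration -/

section filt

variable {F : Type u} [Field F] {Γ : Type w} [Group Γ] {V : Type v} [AddCommGroup V] [Module F V]
  (ρ : Γ →* Module.End F V) (T : Subgroup Γ)

/-- The span of the operators `ρ φ - 1`. -/
def JT : Submodule F (Module.End F V) := Submodule.span F {A | ∃ φ ∈ T, ρ φ - 1 = A}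

variable {ρ T}

lemma mem_JT {φ : Γ} (hφ : φ ∈ T) : ρ φ - 1 ∈ JT ρ T := Submodule.subset_span ⟨φ, hφ, rfl⟩

lemma JT_mul : JT ρ T * JT ρ T ≤ JT ρ T := by
  rw [JT, Submodule.span_mul_span, Submodule.span_le]
  rintro _ ⟨_, ⟨φ, hφ, rfl⟩, _, ⟨ψ, hψ, rfl⟩, rfl⟩
  have h1 : (ρ φ - 1) * (ρ ψ - 1) = (ρ (φ * ψ) - 1) - (ρ φ - 1) - (ρ ψ - 1) := by
    rw [map_mul]
    noncomm_ring
  change (ρ φ - 1) * (ρ ψ - 1) ∈ JT ρ T
  rw [h1]
  exact Submodule.sub_mem _ (Submodule.sub_mem _ (mem_JT (T.mul_mem hφ hψ)) (mem_JT hφ))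
    (mem_JT hψ)

lemma JT_pow_le (j : ℕ) : JT ρ T ^ (j + 1) * JT ρ T ≤ JT ρ T ^ (j + 1) := by
  rw [pow_succ, mul_assoc]
  exact mul_le_mul' le_rfl JT_mul

lemma filt {x ζ : Γ} (hx : x ∈ T) (hζ : ζ ∈ T) {j : ℕ} (hj : ρ x - 1 ∈ JT ρ T ^ (j + 1)) :
    ρ (x * ζ * x⁻¹ * ζ⁻¹) - 1 ∈ JT ρ T ^ (j + 2) := by
  have h1 : ρ (x * ζ * x⁻¹ * ζ⁻¹) - 1 =
      ((ρ x - 1) * (ρ ζ - 1) - (ρ ζ - 1) * (ρ x - 1)) +
      ((ρ x - 1) * (ρ ζ - 1) - (ρ ζ - 1) * (ρ x - 1)) * (ρ (x⁻¹ * ζ⁻¹) - 1) := by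
    have e1 : ρ (x * ζ * x⁻¹ * ζ⁻¹) = ρ x * ρ ζ * ρ (x⁻¹ * ζ⁻¹) := by
      rw [← map_mul, ← map_mul]
      congr 1
      group
    have e2 : ρ ζ * ρ x * ρ (x⁻¹ * ζ⁻¹) = 1 := by
      rw [← map_mul, ← map_mul, ← map_one ρ]
      congr 1
      group
    rw [e1]
    conv_lhs => rw [← e2]
    noncomm_ring
  have h2 : (ρ x - 1) * (ρ ζ - 1) - (ρ ζ - 1) * (ρ x - 1) ∈ JT ρ T ^ (j + 2) := by
    refine Submodule.sub_mem _ ?_ ?_
    · rw [pow_succ]
      exact Submodule.mul_mem_mul hj (mem_JT hζ)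
    · rw [pow_succ']
      exact Submodule.mul_mem_mul (mem_JT hζ) hj
  rw [h1]
  exact Submodule.add_mem _ h2 (JT_pow_le (j + 1)
    (Submodule.mul_mem_mul h2 (mem_JT (T.mul_mem (T.inv_mem hx) (T.inv_mem hζ)))))

lemma JT_pow_bot {D : ℕ}
    (h : ∀ l : List Γ, (∀ φ ∈ l, φ ∈ T) → D ≤ l.length → (l.map (fun φ => ρ φ - 1)).prod = 0) :
    JT ρ T ^ D = ⊥ := by
  rw [JT, Submodule.span_pow, Submodule.span_eq_bot]
  intro A hA
  obtain ⟨s, rfl⟩ := Set.mem_pow.1 hA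
  choose φ hφ hφ' using fun i => (s i).2
  have h1 := h (List.ofFn φ) (by
    intro ψ hψ
    obtain ⟨i, rfl⟩ := List.mem_ofFn.1 hψ
    exact hφ i) (by rw [List.length_ofFn])
  rw [List.map_ofFn] at h1
  rw [← h1]
  congr 2
  funext i
  exact (hφ' i).symm

end filt

/-! ### Pushes -/

section push

variable {n : ℕ} {G : Type w} [Group G] {a b : Fin (n + 1) → G} (h : IsSurf a b)

/-- The homomorphism which kills the `a`. -/
def pib {P : Type*} [Group P] (X : ℕ → P) : Fr n →* P :=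
  FreeGroup.lift (Sum.elim (fun _ => 1) (fun k => X k))

theorem XX_not_inner {P : Type*} [Group P] (X : ℕ → P) {y : Fr n} (hy : pib X y ≠ 1) (c : G) :
    XX h y ≠ MulAut.conj c := by
  intro hc
  obtain ⟨Φ, hΦa, hΦb⟩ := h.lift (fun _ => (1 : P)) (fun k => if (k : ℕ) < n then X k else 1)
    (relWord_one _)
  obtain ⟨-, -, w, h1, h2⟩ := XX_sheet h (pib X) y
  have e : Φ.comp (jA a b) = p1 (pib X) := by
    ext x
    change Φ (jA a b (of x)) = p1 (pib X) (of x)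
    rcases x with _ | (k | k)
    · rw [jA_none, p1_none, hΦa]
    · rw [jA_a, p1_some, hΦa]
      simp [pib]
    · rw [jA_b, p1_some, hΦb]
      simp [pib]
  have hb : Φ (b (Fin.last n)) = 1 := by
    rw [hΦb, if_neg (by simp)]
  have h3 : Φ (XX h y (b (Fin.last n))) = pib X y := by
    rw [h1, map_mul, hb, one_mul, ← h2, ← e]
    rfl
  apply hy
  rw [← h3, hc, MulAut.conj_apply, map_mul, map_mul, map_inv, hb, mul_one, mul_inv_cancel]

/-- The commutator of two of the `b`. -/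
def cz (i j : Fin n) : Fr n :=
  of (Sum.inr j) * of (Sum.inr i) * (of (Sum.inr j))⁻¹ * (of (Sum.inr i))⁻¹

lemma hs_cz {i j : Fin n} (hij : i ≠ j) : Pool.Agent.H.MP_59b15d_al.H93C.hs (cz i j) = 1 := by
  rw [cz, hs_comm, Pool.Agent.H.MP_59b15d_al.H93C.clr_b, Pool.Agent.H.MP_59b15d_al.H93C.clr_b,
    om_f, f_ne hij]
  simp

/-- Iterated commutators. -/
def ww (z z' : Fr n) : ℕ → Fr n
  | 0 => z'
  | j + 1 => ww z z' j * z * (ww z z' j)⁻¹ * z⁻¹

lemma ww_map {P : Type*} [Group P] (σ : Fr n →* P) {z z' : Fr n} (hz : σ z = 1) (hz' : σ z' = 1)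
    (j : ℕ) : σ (ww z z' j) = 1 := by
  induction j with
  | zero => exact hz'
  | succ j ih => rw [ww, map_mul, map_mul, map_mul, map_inv, map_inv, ih, hz]; simp

/-- The fixed point free involutions. -/
def Pd (σ : Equiv.Perm (Fin 4)) : Prop := σ * σ = 1 ∧ ∀ x, σ x ≠ x

instance (σ : Equiv.Perm (Fin 4)) : Decidable (Pd σ) := by unfold Pd; infer_instance

/-- Three transpositions. -/
def Xp (k : ℕ) : Equiv.Perm (Fin 4) :=
  if k = 0 then Equiv.swap 0 1 else if k = 1 then Equiv.swap 1 2 else Equiv.swap 2 3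

lemma pib_cz {P : Type*} [Group P] (X : ℕ → P) (i j : Fin n) :
    pib X (cz i j) = X j * X i * (X j)⁻¹ * (X i)⁻¹ := by
  simp [pib, cz]

set_option maxRecDepth 10000 in
lemma Pd_step : ∀ σ : Equiv.Perm (Fin 4), Pd σ →
    Pd (σ * (Xp 1 * Xp 0 * (Xp 1)⁻¹ * (Xp 0)⁻¹) * σ⁻¹ *
      (Xp 1 * Xp 0 * (Xp 1)⁻¹ * (Xp 0)⁻¹)⁻¹) := by
  decide

set_option maxRecDepth 10000 in
lemma Pd_zero : Pd ((Xp 2 * Xp 1 * (Xp 2)⁻¹ * (Xp 1)⁻¹) * (Xp 1 * Xp 0 * (Xp 1)⁻¹ * (Xp 0)⁻¹) *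
    (Xp 2 * Xp 1 * (Xp 2)⁻¹ * (Xp 1)⁻¹)⁻¹ * (Xp 1 * Xp 0 * (Xp 1)⁻¹ * (Xp 0)⁻¹)⁻¹) := by
  decide

lemma Pd_ww (hn : 3 ≤ n) (j : ℕ) : Pd (pib Xp
    (ww (cz (⟨0, by omega⟩ : Fin n) ⟨1, by omega⟩) (cz ⟨1, by omega⟩ ⟨2, by omega⟩) (j + 1))) := by
  induction j with
  | zero =>
    rw [ww, ww, map_mul, map_mul, map_mul, map_inv, map_inv, pib_cz, pib_cz]
    exact Pd_zero
  | succ j ih =>
    rw [ww, map_mul, map_mul, map_mul, map_inv, map_inv, pib_cz]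
    exact Pd_step _ ih

lemma Pd_ne {σ : Equiv.Perm (Fin 4)} (h : Pd σ) : σ ≠ 1 := by
  rintro rfl
  exact h.2 0 rfl

end push

section main

variable {m : ℕ} {G : Type w} [Group G] {a b : Fin m → G} (h : IsSurf a b)
variable {F : Type u} [Field F] {D : ℕ}

/-- **No faithful representation**: if the products of `D` of the operators `ρ φ - 1` over the
Torelli group vanish, the kernel contains elements of the Torelli group which are not inner
automorphisms. -/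
theorem exists_ker' (hm : 4 ≤ m) {V : Type v} [AddCommGroup V] [Module F V]
    (ρ : MCG a b →* Module.End F V)
    (hU : ∀ l : List (MCG a b), (∀ φ ∈ l, ∀ x, cls h ((φ : MulAut G) x) = cls h x) →
      D ≤ l.length → (l.map (fun φ => ρ φ - 1)).prod = 0) :
    ∃ φ : MCG a b, ρ φ = 1 ∧ (∀ x, cls h ((φ : MulAut G) x) = cls h x) ∧
      ∀ c : G, (φ : MulAut G) ≠ MulAut.conj c := by
  obtain ⟨n, rfl⟩ : ∃ n, m = n + 1 := ⟨m - 1, by omega⟩
  have hJ : JT ρ (Tor h) ^ D = ⊥ := JT_pow_bot fun l hl hlen => hU l hl hlen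
  let z : Fr n := cz ⟨0, by omega⟩ ⟨1, by omega⟩
  let z' : Fr n := cz ⟨1, by omega⟩ ⟨2, by omega⟩
  have hz : Pool.Agent.H.MP_59b15d_al.H93C.hs z = 1 := hs_cz (by simp)
  have hz' : Pool.Agent.H.MP_59b15d_al.H93C.hs z' = 1 := hs_cz (by simp)
  have hM : ∀ y : Fr n, XX h y ∈ MCG a b := by
    intro y
    rw [MCG_eq h]
    exact XX_mem h y
  have hT : ∀ y : Fr n, Pool.Agent.H.MP_59b15d_al.H93C.hs y = 1 →
      (⟨XX h y, hM y⟩ : MCG a b) ∈ Tor h := by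
    intro y hy x
    have h1 := XX_triv h hy
    have h2 := congrArg (fun A => A (cls h x)) h1
    simpa [SP.H1_cls] using h2
  have key : ∀ j, ρ (⟨XX h (ww z z' j), hM _⟩ : MCG a b) - 1 ∈ JT ρ (Tor h) ^ (j + 1) := by
    intro j
    induction j with
    | zero =>
      rw [zero_add, pow_one]
      exact mem_JT (hT _ hz')
    | succ j ih =>
      have h1 := filt (hT _ (ww_map _ hz hz' j)) (hT _ hz) ih
      have h2 : (⟨XX h (ww z z' (j + 1)), hM _⟩ : MCG a b) =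
          ⟨XX h (ww z z' j), hM _⟩ * ⟨XX h z, hM _⟩ * (⟨XX h (ww z z' j), hM _⟩ : MCG a b)⁻¹ *
            (⟨XX h z, hM _⟩ : MCG a b)⁻¹ := by
        apply Subtype.ext
        change XX h (ww z z' (j + 1)) = XX h (ww z z' j) * XX h z * (XX h (ww z z' j))⁻¹ *
          (XX h z)⁻¹
        rw [ww, map_mul, map_mul, map_mul, map_inv, map_inv]
      rw [h2]
      exact h1
  refine ⟨⟨XX h (ww z z' (D + 1)), hM _⟩, ?_, hT _ (ww_map _ hz hz' _), fun c =>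
    XX_not_inner h Xp (Pd_ne (Pd_ww (by omega) D)) c⟩
  have h1 := key (D + 1)
  rw [show D + 1 + 1 = D + 2 by omega, pow_add, hJ, Submodule.bot_mul, Submodule.mem_bot,
    sub_eq_zero] at h1
  exact h1

/-- **No faithful representation.** -/
theorem exists_ker (hm : 4 ≤ m) (hG : Good.{u, v, w} h F D) (V : Type v) [AddCommGroup V]
    [Module F V] [FiniteDimensional F V] (ρ : MCG a b →* Module.End F V)
    (hD : finrank F V ≤ D) :
    ∃ φ : MCG a b, ρ φ = 1 ∧ (∀ x, cls h ((φ : MulAut G) x) = cls h x) ∧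
      ∀ c : G, (φ : MulAut G) ≠ MulAut.conj c :=
  exists_ker' h hm ρ fun l hl hlen => good_unip h hG V ρ hD l hl (hD.trans hlen)

end main

end Pool.Agent.H.MP_59b15d_al.H52E
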