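/-
Replacement of the blocks of two handles: the mixed degree bound for the twists `uA`.
-/
import Pool.Agent.H.MP_59b15d_al.h98p.MixA

set_option autoImplicit false

namespace Pool.Agent.H.MP_59b15d_al.H52E

universe u v w

open Module Pool.Agent.H.MP_59b15d_al.Lin
open Pool.MP_59b15d_al.H24T Pool.MP_59b15d_al.H76R Pool.MP_59b15d_al.H73E
open Pool.MP_59b15d_al.H60G Pool.MP_59b15d_al.H40L
open scoped commutatorElement

lemma braid_eq {Q : Type*} [Group Q] {x y : Q} (h1 : x * y * x = y * x * y) (h2 : Commute y x) :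
    y = x := by
  have h3 : x * y * x = x * y * y := by rw [h1, h2.eq]
  exact (mul_left_cancel h3).symm

section kill

variable {m : ℕ} {G : Type w} [Group G] {a b : Fin m → G} (h : IsSurf a b)

/-- A homomorphism of the group of a block of three handles with the same value at two of the `A`
is trivial. -/
theorem kill3 {lo : ℕ} (hlo : lo + 3 ≤ m) {Q : Type*} [Group Q]
    (σ : Pool.MP_59b15d_al.H60G.MR h lo (lo + 3) →* Q)
    (h0 : σ ⟨TrA h (lo + 1), TrA_mem h (by omega) (by omega)⟩ =
      σ ⟨TrA h lo, TrA_mem h (by omega) (by omega)⟩)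
    (x : Pool.MP_59b15d_al.H60G.MR h lo (lo + 3)) : σ x = 1 := by
  have T := treeGrp h
  let vA : ∀ k, lo ≤ k → k < lo + 3 → Pool.MP_59b15d_al.H60G.MR h lo (lo + 3) :=
    fun k h1 h2 => ⟨TrA h k, TrA_mem h h1 h2⟩
  let vB : ∀ k, lo ≤ k → k < lo + 3 → Pool.MP_59b15d_al.H60G.MR h lo (lo + 3) :=
    fun k h1 h2 => ⟨TrB h k, TrB_mem h h1 h2⟩
  let vC : ∀ k, lo ≤ k → k + 1 < lo + 3 → Pool.MP_59b15d_al.H60G.MR h lo (lo + 3) :=
    fun k h1 h2 => ⟨TrC h k, TrC_mem h h1 h2⟩
  have cmm : ∀ {x y : Pool.MP_59b15d_al.H60G.MR h lo (lo + 3)},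
      Commute (x : MulAut G) (y : MulAut G) → Commute (σ x) (σ y) := fun hc =>
    Commute.map (Subtype.ext hc.eq) σ
  have brd : ∀ {x y : Pool.MP_59b15d_al.H60G.MR h lo (lo + 3)},
      (x : MulAut G) * y * x = y * x * y → σ x * σ y * σ x = σ y * σ x * σ y := by
    intro x y hb
    rw [← map_mul, ← map_mul, ← map_mul, ← map_mul]
    exact congrArg σ (Subtype.ext hb)
  have a1 : σ (vA (lo + 1) (by omega) (by omega)) = σ (vA lo le_rfl (by omega)) := h0
  have b0 : σ (vB lo le_rfl (by omega)) = σ (vA lo le_rfl (by omega)) := by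
    refine braid_eq (brd (T.AB lo (by omega))) ?_
    rw [← a1]
    exact cmm (T.cAB (lo + 1) lo (by omega) (by omega) (by omega)).symm
  have b1 : σ (vB (lo + 1) (by omega) (by omega)) = σ (vA lo le_rfl (by omega)) := by
    rw [← a1]
    refine braid_eq (brd (T.AB (lo + 1) (by omega))) ?_
    rw [a1]
    exact cmm (T.cAB lo (lo + 1) (by omega) (by omega) (by omega)).symm
  have c0 : σ (vC lo le_rfl (by omega)) = σ (vA lo le_rfl (by omega)) := by
    have h1 := braid_eq (brd (T.BC lo (by omega)) :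
      σ (vB lo le_rfl (by omega)) * σ (vC lo le_rfl (by omega)) * σ (vB lo le_rfl (by omega)) =
      _) (by
        rw [b0]
        exact cmm (T.cAC lo lo (by omega) (by omega)).symm)
    rw [h1, b0]
  have c1 : σ (vC (lo + 1) (by omega) (by omega)) = σ (vA lo le_rfl (by omega)) := by
    have h1 := braid_eq (brd (T.BC (lo + 1) (by omega)) :
      σ (vB (lo + 1) (by omega) (by omega)) * σ (vC (lo + 1) (by omega) (by omega)) *
      σ (vB (lo + 1) (by omega) (by omega)) = _) (by
        rw [b1]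
        exact cmm (T.cAC lo (lo + 1) (by omega) (by omega)).symm)
    rw [h1, b1]
  have b2 : σ (vB (lo + 2) (by omega) (by omega)) = σ (vA lo le_rfl (by omega)) := by
    have h1 := braid_eq (brd (T.CB (lo + 1) (by omega)) :
      σ (vC (lo + 1) (by omega) (by omega)) * σ (vB (lo + 2) (by omega) (by omega)) *
      σ (vC (lo + 1) (by omega) (by omega)) = _) (by
        rw [c1]
        exact cmm (T.cAB lo (lo + 2) (by omega) (by omega) (by omega)).symm)
    rw [h1, c1]
  have a2 : σ (vA (lo + 2) (by omega) (by omega)) = σ (vA lo le_rfl (by omega)) := by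
    have h1 := braid_eq ((brd (T.AB (lo + 2) (by omega)) :
      σ (vA (lo + 2) (by omega) (by omega)) * σ (vB (lo + 2) (by omega) (by omega)) *
      σ (vA (lo + 2) (by omega) (by omega)) = _).symm) (by
        rw [b2]
        exact cmm (T.cAA (lo + 2) lo (by omega) (by omega)))
    rw [h1, b2]
  have hz : ∀ x, σ x ∈ Subgroup.zpowers (σ (vA lo le_rfl (by omega))) := by
    have hS : {T | (∃ k, lo ≤ k ∧ k < lo + 3 ∧ T = TrA h k) ∨
        (∃ k, lo ≤ k ∧ k < lo + 3 ∧ T = TrB h k) ∨
        ∃ k, lo ≤ k ∧ k + 1 < lo + 3 ∧ T = TrC h k} ⊆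
        (Pool.MP_59b15d_al.H60G.MR h lo (lo + 3) : Set (MulAut G)) := by
      rintro _ (⟨k, h1, h2, rfl⟩ | ⟨k, h1, h2, rfl⟩ | ⟨k, h1, h2, rfl⟩)
      · exact TrA_mem h h1 h2
      · exact TrB_mem h h1 h2
      · exact TrC_mem h h1 h2
    intro x
    have hx0 : (x : MulAut G) ∈ TRR h lo (lo + 3) := by
      rw [TRR_eq h lo (lo + 3)]
      exact x.2
    have hx := mem_closure_of_val hS (x := x) hx0
    refine Subgroup.closure_induction (p := fun x _ => σ x ∈ Subgroup.zpowers _) ?_ ?_ ?_ ?_ hx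
    · rintro y (⟨k, h1, h2, h3⟩ | ⟨k, h1, h2, h3⟩ | ⟨k, h1, h2, h3⟩)
      · rw [show y = vA k h1 h2 from Subtype.ext h3]
        rcases (by omega : k = lo ∨ k = lo + 1 ∨ k = lo + 2) with rfl | rfl | rfl
        · exact Subgroup.mem_zpowers _
        · rw [a1]; exact Subgroup.mem_zpowers _
        · rw [a2]; exact Subgroup.mem_zpowers _
      · rw [show y = vB k h1 h2 from Subtype.ext h3]
        rcases (by omega : k = lo ∨ k = lo + 1 ∨ k = lo + 2) with rfl | rfl | rfl
        · rw [b0]; exact Subgroup.mem_zpowers _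
        · rw [b1]; exact Subgroup.mem_zpowers _
        · rw [b2]; exact Subgroup.mem_zpowers _
      · rw [show y = vC k h1 h2 from Subtype.ext h3]
        rcases (by omega : k = lo ∨ k = lo + 1) with rfl | rfl
        · rw [c0]; exact Subgroup.mem_zpowers _
        · rw [c1]; exact Subgroup.mem_zpowers _
    · rw [map_one]; exact Subgroup.one_mem _
    · intro x y _ _ hx hy
      rw [map_mul]
      exact Subgroup.mul_mem _ hx hy
    · intro x _ hx
      rw [map_inv]
      exact Subgroup.inv_mem _ hx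
  have hle : commutator (Pool.MP_59b15d_al.H60G.MR h lo (lo + 3)) ≤ σ.ker := by
    rw [commutator_def, Subgroup.commutator_le]
    intro x _ y _
    rw [MonoidHom.mem_ker, map_commutatorElement, commutatorElement_eq_one_iff_commute]
    obtain ⟨i, hi⟩ := Subgroup.mem_zpowers_iff.1 (hz x)
    obtain ⟨j, hj⟩ := Subgroup.mem_zpowers_iff.1 (hz y)
    rw [← hi, ← hj]
    exact Commute.zpow_zpow_self _ _ _
  exact hle (MR3_perfect h (lo := lo) (by omega) x)

end kill

section two

variable {m : ℕ} {G : Type w} [Group G] {a b : Fin m → G} (h : IsSurf a b)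

/-- The quotient of the twists of two adjacent handles is a product of commutators. -/
theorem quot_mem {lo : ℕ} (hlo : lo + 2 ≤ m) : (TrA h (lo + 1))⁻¹ * TrA h lo ∈
    ⁅Pool.MP_59b15d_al.H60G.MR h lo (lo + 2), Pool.MP_59b15d_al.H60G.MR h lo (lo + 2)⁆ := by
  have T := treeGrp h
  obtain ⟨σ, hσ⟩ : ∃ σ : Pool.MP_59b15d_al.H60G.MR h lo (lo + 2) →*
      Abelianization (Pool.MP_59b15d_al.H60G.MR h lo (lo + 2)), σ = Abelianization.of := ⟨_, rfl⟩
  let vA : ∀ k, lo ≤ k → k < lo + 2 → Pool.MP_59b15d_al.H60G.MR h lo (lo + 2) :=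
    fun k h1 h2 => ⟨TrA h k, TrA_mem h h1 h2⟩
  let vB : ∀ k, lo ≤ k → k < lo + 2 → Pool.MP_59b15d_al.H60G.MR h lo (lo + 2) :=
    fun k h1 h2 => ⟨TrB h k, TrB_mem h h1 h2⟩
  let vC : Pool.MP_59b15d_al.H60G.MR h lo (lo + 2) :=
    ⟨TrC h lo, TrC_mem h le_rfl (by omega)⟩
  have brd : ∀ {x y : Pool.MP_59b15d_al.H60G.MR h lo (lo + 2)},
      (x : MulAut G) * y * x = y * x * y → σ y = σ x := by
    intro x y hb
    refine braid_eq ?_ (Commute.all _ _)
    rw [← map_mul, ← map_mul, ← map_mul, ← map_mul]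
    exact congrArg σ (Subtype.ext hb)
  have b0 : σ (vB lo le_rfl (by omega)) = σ (vA lo le_rfl (by omega)) :=
    brd (T.AB lo (by omega))
  have c0 : σ vC = σ (vB lo le_rfl (by omega)) := brd (T.BC lo (by omega))
  have b1 : σ (vB (lo + 1) (by omega) (by omega)) = σ vC := brd (T.CB lo (by omega))
  have a1 : σ (vA (lo + 1) (by omega) (by omega)) = σ (vB (lo + 1) (by omega) (by omega)) :=
    brd (T.AB (lo + 1) (by omega)).symm
  have h1 : σ ((vA (lo + 1) (by omega) (by omega))⁻¹ * vA lo le_rfl (by omega)) = 1 := by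
    rw [map_mul, map_inv, a1, b1, c0, b0, inv_mul_cancel]
  rw [hσ] at h1
  have h2 := (QuotientGroup.eq_one_iff _).1 h1
  rw [← map_comm_sub]
  exact ⟨_, h2, rfl⟩

end two

section repl

variable {m : ℕ} {G : Type w} [Group G] {a b : Fin m → G} (h : IsSurf a b)
variable {F : Type u} [Field F] {V : Type v} [AddCommGroup V] [Module F V]

/-- Let `P` and `Q` commute with the block of three handles. If `P (x - 1) Q = 0` for the
commutators of the block of two handles, then `P (x - 1) Q = 0` for all `x` in the block of three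
handles. -/
theorem repl_step (ρ : MCG a b →* Module.End F V) {lo : ℕ} (hlo : lo + 3 ≤ m)
    (P Q : Module.End F V)
    (hP : ∀ x : MCG a b, (x : MulAut G) ∈ Pool.MP_59b15d_al.H60G.MR h lo (lo + 3) →
      Commute P (ρ x))
    (hQ : ∀ x : MCG a b, (x : MulAut G) ∈ Pool.MP_59b15d_al.H60G.MR h lo (lo + 3) →
      Commute Q (ρ x))
    (h0 : ∀ x : MCG a b, (x : MulAut G) ∈
      ⁅Pool.MP_59b15d_al.H60G.MR h lo (lo + 2), Pool.MP_59b15d_al.H60G.MR h lo (lo + 2)⁆ →
      P * (ρ x - 1) * Q = 0) (x : MCG a b)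
    (hx : (x : MulAut G) ∈ Pool.MP_59b15d_al.H60G.MR h lo (lo + 3)) :
    P * (ρ x - 1) * Q = 0 := by
  have hle := MR_le_MCG h lo (lo + 3)
  let ι : Pool.MP_59b15d_al.H60G.MR h lo (lo + 3) →* MCG a b := Subgroup.inclusion hle
  let N : Subgroup (Pool.MP_59b15d_al.H60G.MR h lo (lo + 3)) :=
    { carrier := {y | P * (ρ (ι y) - 1) * Q = 0}
      mul_mem' := by
        intro y z hy hz
        have hy' : P * (ρ (ι y) - 1) * Q = 0 := hy
        have hz' : P * (ρ (ι z) - 1) * Q = 0 := hz
        change P * (ρ (ι (y * z)) - 1) * Q = 0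
        have e1 : P * (ρ (ι (y * z)) - 1) * Q =
            P * ρ (ι y) * (ρ (ι z) - 1) * Q + P * (ρ (ι y) - 1) * Q := by
          rw [map_mul, map_mul]
          noncomm_ring
        rw [e1, hy', (hP (ι y) y.2).eq, mul_assoc (ρ (ι y)), mul_assoc (ρ (ι y)), hz', mul_zero,
          add_zero]
      one_mem' := by
        change P * (ρ (ι 1) - 1) * Q = 0
        rw [map_one, map_one, sub_self, mul_zero, zero_mul]
      inv_mem' := by
        intro y hy
        have hy' : P * (ρ (ι y) - 1) * Q = 0 := hy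
        change P * (ρ (ι y⁻¹) - 1) * Q = 0
        have e0 : ρ (ι y⁻¹) * ρ (ι y) = 1 := by
          rw [← map_mul, ← map_mul, inv_mul_cancel, map_one, map_one]
        have e1 : ρ (ι y⁻¹) - 1 = -(ρ (ι y⁻¹) * (ρ (ι y) - 1)) := by
          rw [mul_sub, e0, mul_one, neg_sub]
        rw [e1, mul_neg, neg_mul, ← mul_assoc, (hP (ι y⁻¹) y⁻¹.2).eq, mul_assoc (ρ (ι y⁻¹)),
          mul_assoc (ρ (ι y⁻¹)), hy', mul_zero, neg_zero] }
  have hN : N.Normal := by
    constructor
    intro y hy z
    have hy' : P * (ρ (ι y) - 1) * Q = 0 := hy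
    change P * (ρ (ι (z * y * z⁻¹)) - 1) * Q = 0
    have e0 : ρ (ι z) * ρ (ι z⁻¹) = 1 := by
      rw [← map_mul, ← map_mul, mul_inv_cancel, map_one, map_one]
    have e1 : ρ (ι (z * y * z⁻¹)) - 1 = ρ (ι z) * (ρ (ι y) - 1) * ρ (ι z⁻¹) := by
      rw [map_mul, map_mul, map_mul, map_mul, mul_sub, sub_mul, mul_one, e0]
    calc P * (ρ (ι (z * y * z⁻¹)) - 1) * Q
        = (P * ρ (ι z)) * (ρ (ι y) - 1) * (ρ (ι z⁻¹) * Q) := by
          rw [e1]
          noncomm_ring
      _ = ρ (ι z) * (P * (ρ (ι y) - 1) * Q) * ρ (ι z⁻¹) := by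
          rw [(hP (ι z) z.2).eq, ← (hQ (ι z⁻¹) z⁻¹.2).eq]
          noncomm_ring
      _ = 0 := by rw [hy', mul_zero, zero_mul]
  have h1 := kill3 h hlo (QuotientGroup.mk' N) (by
    rw [QuotientGroup.mk'_apply, QuotientGroup.mk'_apply, QuotientGroup.eq]
    change P * (ρ (ι (_⁻¹ * _)) - 1) * Q = 0
    apply h0
    exact quot_mem h (by omega)) ⟨x, hx⟩
  rw [QuotientGroup.mk'_apply, QuotientGroup.eq_one_iff] at h1
  exact h1

/-- The product of the operators `ρ (y k) - 1`. -/
def pr' (ρ : MCG a b →* Module.End F V) (y : ℕ → MCG a b) (lo n : ℕ) : Module.End F V :=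
  ((List.range n).map fun k => ρ (y (lo + k)) - 1).prod

lemma pr'_comm (ρ : MCG a b →* Module.End F V) {y : ℕ → MCG a b} {lo n : ℕ} {x : MCG a b}
    (hc : ∀ k, k < n → Commute (y (lo + k)) x) : Commute (pr' ρ y lo n) (ρ x) := by
  refine (Commute.list_prod_left _ _ ?_)
  intro A hA
  obtain ⟨k, hk, rfl⟩ := List.mem_map.1 hA
  rw [List.mem_range] at hk
  exact ((hc k hk).map ρ).sub_left (Commute.one_left _)

lemma pr'_split (ρ : MCG a b →* Module.End F V) (y : ℕ → MCG a b) (j l : ℕ) :
    pr' ρ y 0 (j + (1 + l)) = pr' ρ y 0 j * (ρ (y j) - 1) * pr' ρ y (j + 1) l := by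
  rw [pr', List.range_add, List.map_append, List.prod_append, List.range_add, List.map_append,
    List.map_append, List.prod_append, ← mul_assoc]
  congr 1
  · simp [pr']
  · rw [pr', List.map_map, List.map_map]
    congr 2
    funext k
    simp only [Function.comp_apply]
    rw [show 0 + (j + (1 + k)) = j + 1 + k by omega]

/-- The elements after `t - j` replacements. -/
noncomputable def yy (t : ℕ) (x : ℕ → MCG a b) (j k : ℕ) : MCG a b :=
  if k < j then x k else if k < t then uA h (2 * k + 2) else uA h (2 * t + 3 * (k - t) + 1)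

variable [FiniteDimensional F V]

theorem repl_all (ρ : MCG a b →* Module.End F V) {t s : ℕ} (hs : 1 ≤ s)
    (hm : 2 * t + 3 * s ≤ m) (hdim : finrank F V < 4 ^ t * 6 ^ s) :
    ∀ i j, j + i = t → ∀ x : ℕ → MCG a b,
      (∀ k, k < j → (x k : MulAut G) ∈ ⁅Pool.MP_59b15d_al.H60G.MR h (2 * k) (2 * k + 2),
        Pool.MP_59b15d_al.H60G.MR h (2 * k) (2 * k + 2)⁆) →
      pr' ρ (yy h t x j) 0 (t + s) = 0 := by
  intro i
  induction i with
  | zero =>
    rintro j hj x hx
    rw [add_zero] at hj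
    subst hj
    rw [pr']
    simp only [zero_add]
    refine deg_mixed h hm ρ hdim (yy h j x j) ?_
    intro k hk
    by_cases hkj : k < j
    · rw [yy, if_pos hkj, lb, if_pos hkj, nb, if_pos hkj]
      exact hx k hkj
    · rw [yy, if_neg hkj, if_neg hkj, lb, if_neg hkj, nb, if_neg hkj]
      exact MR3_comm h (by omega) (TrA_mem h (by omega) (by omega))
  | succ i ih =>
    intro j hj x hx
    obtain ⟨l, hl⟩ : ∃ l, t + s = j + (1 + l) := ⟨t + s - j - 1, by omega⟩
    have hxm : ∀ k, k < j → (x k : MulAut G) ∈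
        Pool.MP_59b15d_al.H60G.MR h (2 * k) (2 * k + 2) := by
      intro k hk
      have h1 : ⁅Pool.MP_59b15d_al.H60G.MR h (2 * k) (2 * k + 2),
          Pool.MP_59b15d_al.H60G.MR h (2 * k) (2 * k + 2)⁆ ≤
          Pool.MP_59b15d_al.H60G.MR h (2 * k) (2 * k + 2) := by
        rw [Subgroup.commutator_le]
        intro y hy z hz
        exact Subgroup.mul_mem _ (Subgroup.mul_mem _ (Subgroup.mul_mem _ hy hz)
          (Subgroup.inv_mem _ hy)) (Subgroup.inv_mem _ hz)
      exact h1 (hx k hk)
    -- the elements on the left and on the right commute with the block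
    have hP : ∀ z : MCG a b, (z : MulAut G) ∈
        Pool.MP_59b15d_al.H60G.MR h (2 * j) (2 * j + 3) →
        Commute (pr' ρ (yy h t x j) 0 j) (ρ z) := by
      intro z hz
      refine pr'_comm ρ fun k hk => ?_
      rw [zero_add, yy, if_pos hk]
      exact Subtype.ext (Lin.MR_comm h (show 2 * k + 2 ≤ 2 * j by omega) (hxm k hk) hz)
    have hQ : ∀ z : MCG a b, (z : MulAut G) ∈
        Pool.MP_59b15d_al.H60G.MR h (2 * j) (2 * j + 3) →
        Commute (pr' ρ (yy h t x j) (j + 1) l) (ρ z) := by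
      intro z hz
      refine pr'_comm ρ fun k hk => ?_
      rw [yy, if_neg (by omega)]
      split_ifs with h1
      · exact Subtype.ext (Lin.MR_comm h (show 2 * j + 3 ≤ 2 * (j + 1 + k) + 2 by omega) hz
          (TrA_mem h (le_refl (2 * (j + 1 + k) + 2)) (Nat.lt_succ_self _))).symm
      · exact Subtype.ext (Lin.MR_comm h
          (show 2 * j + 3 ≤ 2 * t + 3 * (j + 1 + k - t) + 1 by omega) hz
          (TrA_mem h (le_refl (2 * t + 3 * (j + 1 + k - t) + 1)) (Nat.lt_succ_self _))).symm
    have h0 : ∀ z : MCG a b, (z : MulAut G) ∈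
        ⁅Pool.MP_59b15d_al.H60G.MR h (2 * j) (2 * j + 2),
          Pool.MP_59b15d_al.H60G.MR h (2 * j) (2 * j + 2)⁆ →
        pr' ρ (yy h t x j) 0 j * (ρ z - 1) * pr' ρ (yy h t x j) (j + 1) l = 0 := by
      intro z hz
      have h1 := ih (j + 1) (by omega) (Function.update x j z) (by
        intro k hk
        by_cases hkj : k = j
        · subst hkj
          rw [Function.update_self]
          exact hz
        · rw [Function.update_of_ne hkj]
          exact hx k (by omega))
      rw [hl, pr'_split] at h1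
      have e1 : pr' ρ (yy h t (Function.update x j z) (j + 1)) 0 j = pr' ρ (yy h t x j) 0 j := by
        rw [pr', pr']
        congr 1
        refine List.map_congr_left fun k hk => ?_
        rw [List.mem_range] at hk
        have a1 : yy h t (Function.update x j z) (j + 1) k = x k := by
          rw [yy, if_pos (by omega), Function.update_of_ne (by omega)]
        have a2 : yy h t x j k = x k := by rw [yy, if_pos hk]
        rw [zero_add, a1, a2]
      have e2 : yy h t (Function.update x j z) (j + 1) j = z := by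
        rw [yy, if_pos (by omega), Function.update_self]
      have e3 : pr' ρ (yy h t (Function.update x j z) (j + 1)) (j + 1) l =
          pr' ρ (yy h t x j) (j + 1) l := by
        rw [pr', pr']
        congr 1
        refine List.map_congr_left fun k hk => ?_
        have a1 : yy h t (Function.update x j z) (j + 1) (j + 1 + k) =
            yy h t x j (j + 1 + k) := by
          rw [yy, if_neg (show ¬ j + 1 + k < j + 1 by omega), yy,
            if_neg (show ¬ j + 1 + k < j by omega)]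
        rw [a1]
      rwa [e1, e2, e3] at h1
    have h2 := repl_step h ρ (lo := 2 * j) (by omega) _ _ hP hQ h0 (uA h (2 * j + 2))
      (TrA_mem h (by omega) (by omega))
    rw [hl, pr'_split]
    have e4 : yy h t x j j = uA h (2 * j + 2) := by
      rw [yy, if_neg (by omega), if_pos (by omega)]
    rw [e4]
    exact h2

end repl

end Pool.Agent.H.MP_59b15d_al.H52E
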