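/-
The mixed degree bound for the first twists, and the bound `2 ^ (m - 1)` without hypotheses.
-/
import Pool.Agent.H.MP_59b15d_al.h52e.Repl
import Pool.Agent.H.MP_59b15d_al.h52e.Done

set_option autoImplicit false

namespace Pool.Agent.H.MP_59b15d_al.H52E

universe u v w

open Module Pool.Agent.H.MP_59b15d_al.Lin
open Pool.MP_59b15d_al.H24T Pool.MP_59b15d_al.H76R Pool.MP_59b15d_al.H73E
open Pool.MP_59b15d_al.H60G Pool.MP_59b15d_al.H40L Pool.MP_59b15d_al.H93E
open Pool.MP_59b15d_al.H46U

variable {m : ℕ} {G : Type w} [Group G] {a b : Fin m → G} (h : IsSurf a b)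
variable {F : Type u} [Field F] {D : ℕ}

/-- **The mixed degree bound.** -/
theorem mixed_all : Mixed.{u, v, w} h F := by
  intro V _ _ _ ρ t s hs hm hdim
  have h1 := repl_all h ρ hs hm hdim t 0 (by omega) (fun _ => 1) (fun k hk => by omega)
  -- the indices of the twists
  let q : ℕ → ℕ := fun k => if k < t then 2 * k + 2 else 2 * t + 3 * (k - t) + 1
  have hq : ∀ k, yy h t (fun _ => 1) 0 k = uA h (q k) := by
    intro k
    simp only [yy, q, Nat.not_lt_zero, if_false]
    split_ifs <;> rfl
  have hqm : ∀ k, k < t + s → q k < m := by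
    intro k hk
    simp only [q]
    split_ifs <;> omega
  have hqi : StrictMono q := by
    intro k l hkl
    simp only [q]
    split_ifs <;> omega
  have h2 : Pool.MP_59b15d_al.H11D.np ρ (((List.range (t + s)).map q).map (uA h)) = 0 := by
    rw [← h1, pr', Pool.MP_59b15d_al.H11D.np, List.map_map, List.map_map]
    congr 1
    refine List.map_congr_left fun k _ => ?_
    rw [zero_add, hq]
    rfl
  have h3 := Pool.MP_59b15d_al.H95E.np_all (ulk h (lkm h)) (ρ := ρ)
    (I := (List.range (t + s)).map q) (I' := List.range (t + s))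
    (List.Nodup.map hqi.injective List.nodup_range) (by
      intro i hi
      obtain ⟨k, hk, rfl⟩ := List.mem_map.1 hi
      exact hqm k (List.mem_range.1 hk)) (fun v => by rw [h2]; rfl) List.nodup_range
    (fun i hi => by
      rw [List.mem_range] at hi
      omega) (by rw [List.length_map])
  rw [np_range]
  ext v
  exact h3 v

/-- **The bound `2 ^ (m - 1)`.** -/
theorem good_all (hm : 6 ≤ m) (hD : D < 2 ^ (m - 1)) : Good.{u, v, w} h F D :=
  good_two' h (mixed_all h) hm hD

end Pool.Agent.H.MP_59b15d_al.H52E
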