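/-
The elements with trivial homology class are products of commutators.
-/
import Pool.Agent.H.MP_59b15d_al.lin.Faith
import Pool.Agent.H.MP_59b15d_al.h76r.Ra
import Pool.Agent.H.MP_59b15d_al.lin.SipKer
import Pool.Agent.H.MP_59b15d_al.h11c.Tree

set_option autoImplicit false

namespace Pool.Agent.H.MP_59b15d_al.H52E

universe w

open Pool.Agent.H.MP_59b15d_al.Lin
open Pool.MP_59b15d_al.H24T Pool.MP_59b15d_al.H76R
open Pool.Agent.H.MP_59b15d_al.SP (cls cls_mul cls_inv cls_one cls_a cls_b e f)

variable {m : ℕ} {G : Type w} [Group G] {a b : Fin m → G} (h : IsSurf a b)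

/-- The elements with trivial class are products of commutators. -/
theorem comm_of_cls {y : G} (hy : cls h y = 0) : y ∈ commutator G := by
  let ζ : SP.V m →+ Additive (Abelianization G) :=
    { toFun := fun v => ∑ i, ((v i).1 • Additive.ofMul (Abelianization.of (a i)) +
        (v i).2 • Additive.ofMul (Abelianization.of (b i)))
      map_zero' := by simp
      map_add' := by
        intro v w
        rw [← Finset.sum_add_distrib]
        refine Finset.sum_congr rfl fun i _ => ?_
        simp only [Pi.add_apply, Prod.fst_add, Prod.snd_add, add_smul]
        abel }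
  have h1 : (AddMonoidHom.toMultiplicativeLeft ζ).comp (clsHom h) = Abelianization.of := by
    apply hom_ext h
    · intro i
      change Additive.toMul (ζ (cls h (a i))) = _
      rw [cls_a]
      change Additive.toMul (∑ j, ((e i j).1 • Additive.ofMul (Abelianization.of (a j)) +
        (e i j).2 • Additive.ofMul (Abelianization.of (b j)))) = _
      rw [Finset.sum_eq_single i]
      · simp [e]
      · intro j _ hj
        simp [e, hj]
      · intro hi
        exact absurd (Finset.mem_univ i) hi
    · intro i
      change Additive.toMul (ζ (cls h (b i))) = _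
      rw [cls_b]
      change Additive.toMul (∑ j, ((f i j).1 • Additive.ofMul (Abelianization.of (a j)) +
        (f i j).2 • Additive.ofMul (Abelianization.of (b j)))) = _
      rw [Finset.sum_eq_single i]
      · simp [f]
      · intro j _ hj
        simp [f, hj]
      · intro hi
        exact absurd (Finset.mem_univ i) hi
  have h2 := DFunLike.congr_fun h1 y
  have h3 : Abelianization.of y = 1 := by
    rw [← h2]
    change Additive.toMul (ζ (cls h y)) = 1
    rw [hy, map_zero]
    rfl
  exact (QuotientGroup.eq_one_iff y).1 h3

/-- An automorphism is trivial on the classes if and only if it is trivial on the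
abelianization. -/
theorem comm_iff {φ : MulAut G} :
    (∀ x, φ x * x⁻¹ ∈ commutator G) ↔ ∀ x, cls h (φ x) = cls h x := by
  constructor
  · exact cls_of_comm h
  · intro hφ x
    apply comm_of_cls h
    rw [cls_mul, cls_inv, hφ, add_neg_cancel]

end Pool.Agent.H.MP_59b15d_al.H52E
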